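import Pool.Agent.Helper1K9.PK.Defs

/-!
A criterion for the condition on the multiplicities, and the example of the cyclic covers.
-/

set_option autoImplicit false

namespace Pool.Agent.Helper1K9.PK

variable {n r : ℕ}

/-- If all equations have degree `m`, all exponents of the factor `t i - c i j` are at most `P i j`
and each fibre which is not removed is a branch fibre, then the multiplicities are large if
`n ∑_j P i j + 2 m < m s i` for all `i`. -/
theorem big_of (X : Cover n r) {m : ℕ} (hm0 : 0 < m) (hm : ∀ k, X.m k = m)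
    (P : ∀ i, Fin (X.s i) → ℕ) (he : ∀ k i j, j ∉ X.bd i → X.e k i j ≤ P i j)
    (hbr : ∀ i j, j ∉ X.bd i → ∃ k, X.e k i j ≠ 0)
    (hP : ∀ i, n * ∑ j, P i j + 2 * m < m * X.s i) : X.Big := by
  refine ⟨P, m, hm0, ?_, hP⟩
  rintro v hv ⟨i, j, hij⟩
  have hj : j ∉ X.bd i := fun h => hij (hv.bd i j h)
  obtain ⟨k, hk⟩ := hbr i j hj
  have h1 : X.e k i j * v i j ≤ ∑ i, ∑ j, X.e k i j * v i j :=
    (Finset.single_le_sum (f := fun j => X.e k i j * v i j) (fun _ _ => Nat.zero_le _)
      (Finset.mem_univ j)).trans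
      (Finset.single_le_sum (f := fun i => ∑ j, X.e k i j * v i j) (fun _ _ => Nat.zero_le _)
        (Finset.mem_univ i))
  have h2 : 0 < X.e k i j * v i j := Nat.mul_pos (Nat.pos_of_ne_zero hk) (Nat.pos_of_ne_zero hij)
  have h3 : m ≤ ∑ i, ∑ j, X.e k i j * v i j := by
    have := Nat.le_of_dvd (lt_of_lt_of_le h2 h1) (hv.dvd k)
    rwa [hm k] at this
  refine h3.trans (Finset.sum_le_sum fun i _ => Finset.sum_le_sum fun j _ => ?_)
  by_cases hb : j ∈ X.bd i
  · rw [hv.bd i j hb, Nat.mul_zero, Nat.mul_zero]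
  · exact Nat.mul_le_mul_right _ (he k i j hb)

/-- The cyclic cover `y ^ m = ∏_i ∏_j (t_i - c i j)` of `(ℙ¹)ⁿ`, where `m` divides the number `s i`
of the points `c i j` on the `i`-th line, without the fibres over the `c i j` with `j` in `B i`. -/
def cyclic (m : ℕ) (hm : 0 < m) (s : Fin n → ℕ) (hs : ∀ i, m ∣ s i) (c : ∀ i, Fin (s i) → ℂ)
    (hc : ∀ i, Function.Injective (c i)) (B : ∀ i, Set (Fin (s i))) : Cover n 1 where
  s := s
  c := c
  e := fun _ _ _ => 1
  m := fun _ => m
  bd := B
  c_inj := hc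
  m_pos := fun _ => hm
  bal := fun _ i => by simpa using hs i

/-- The condition holds for the cyclic cover if `n q + 2 m < m s i` for all `i`, where `q` is the
number of the points `c i j` on the `i`-th line whose fibre is not removed. If no fibres are removed,
this is the condition `n s i < m (s i - 2)`. -/
theorem cyclic_big {m : ℕ} (hm : 0 < m) {s : Fin n → ℕ} (hs : ∀ i, m ∣ s i)
    {c : ∀ i, Fin (s i) → ℂ} (hc : ∀ i, Function.Injective (c i)) (B : ∀ i, Set (Fin (s i)))
    (h : ∀ i, n * (B i)ᶜ.ncard + 2 * m < m * s i) : (cyclic m hm s hs c hc B).Big := by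
  classical
  refine big_of _ hm (fun _ => rfl) (fun i j => if j ∈ B i then 0 else 1)
    (fun _ i j hj => ?_) (fun _ _ _ => ⟨0, one_ne_zero⟩) fun i => ?_
  · have h0 : ∀ j : Fin (s i), j ∉ B i → 1 ≤ if j ∈ B i then 0 else 1 := fun j hj => by
      rw [if_neg hj]
    exact h0 j hj
  · have h1 : ∑ j : Fin (s i), (if j ∈ B i then 0 else 1) = (B i)ᶜ.ncard := by
      rw [Set.ncard_eq_toFinset_card', Finset.sum_ite, Finset.sum_const_zero, zero_add,
        Finset.sum_const, smul_eq_mul, mul_one]
      congr 1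
      ext j
      simp
    change n * ∑ j : Fin (s i), (if j ∈ B i then 0 else 1) + 2 * m < m * s i
    rw [h1]
    exact h i

end Pool.Agent.Helper1K9.PK
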