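import Mathlib

/-!
Abelian covers of products of projective lines which are branched over fibres of the projections,
without some of these fibres.
-/

set_option autoImplicit false

namespace Pool.Agent.Helper1K9.PK

/-- The discrete data of an open subset of an abelian cover of `(ℙ¹)ⁿ` which is branched over fibres
of the projections to the factors: the cover with the affine equations
`y_k ^ (m k) = ∏_i ∏_j (t_i - c i j) ^ (e k i j)`, for `k = 1, ..., r`, where `t_1, ..., t_n` are the
coordinates of the factors, without the fibres over the points `c i j` with `j` in `bd i`. The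
`s i` points `c i j` on the `i`-th line are distinct, and infinity is not a branch point. -/
structure Cover (n r : ℕ) where
  /-- the number of points on the lines -/
  s : Fin n → ℕ
  /-- the points -/
  c : ∀ i, Fin (s i) → ℂ
  /-- the exponents -/
  e : Fin r → ∀ i, Fin (s i) → ℕ
  /-- the degrees of the equations -/
  m : Fin r → ℕ
  /-- the fibres which are removed -/
  bd : ∀ i, Set (Fin (s i))
  c_inj : ∀ i, Function.Injective (c i)
  m_pos : ∀ k, 0 < m k
  /-- no branching at infinity -/
  bal : ∀ k i, m k ∣ ∑ j, e k i j

namespace Cover

variable {n r : ℕ} (X : Cover n r)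

/-- `(t, y)` satisfies the equations of the cover, in the field `L`, and is not in one of the fibres
over the points `c i j`. -/
structure Pt {L : Type} [Field L] [Algebra ℂ L] (t : Fin n → L) (y : Fin r → L) : Prop where
  eq : ∀ k, y k ^ X.m k = ∏ i, ∏ j, (t i - algebraMap ℂ L (X.c i j)) ^ X.e k i j
  off : ∀ i j, t i ≠ algebraMap ℂ L (X.c i j)

/-- The possible intersection multiplicities `v i j` of a curve germ on the cover with the fibres
over the points `c i j`: on each line at most one of them is not zero, they vanish for the fibres
which are removed, and they satisfy the congruences which are given by the equations. -/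
structure Mult (v : ∀ i, Fin (X.s i) → ℕ) : Prop where
  one : ∀ i j l, v i j ≠ 0 → v i l ≠ 0 → j = l
  bd : ∀ i j, j ∈ X.bd i → v i j = 0
  dvd : ∀ k, X.m k ∣ ∑ i, ∑ j, X.e k i j * v i j

/-- The multiplicities are large, for certain weights, compared with the number of the points
`c i j`: for some weights `p i j / Q` all multiplicities `v ≠ 0` of curve germs satisfy
`∑ (p i j / Q) v i j ≥ 1`, and `s i - 2 > n ∑_j (p i j / Q)` for all `i`. -/
def Big : Prop :=
  ∃ (p : ∀ i, Fin (X.s i) → ℕ) (Q : ℕ), 0 < Q ∧
    (∀ v, X.Mult v → (∃ i j, v i j ≠ 0) → Q ≤ ∑ i, ∑ j, p i j * v i j) ∧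
    ∀ i, n * ∑ j, p i j + 2 * Q < Q * X.s i

end Cover

/-- `f` is a regular function on the quasi-projective variety with generic point `x`, the complement
of the coordinate hyperplanes with index in `U` in a projective variety: it is the quotient of a
form by a monomial in the coordinates with index in `U`. -/
def RegularOn {M : ℕ} (U : Set (Fin (M + 1))) {L : Type} [Field L] [Algebra ℂ L]
    (x : Fin (M + 1) → L) (f : L) : Prop :=
  ∃ (a : Fin (M + 1) → ℕ) (G : MvPolynomial (Fin (M + 1)) ℂ), (∀ l, l ∉ U → a l = 0) ∧
    G.IsHomogeneous (∑ l, a l) ∧ f * ∏ l, x l ^ a l = MvPolynomial.aeval x G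

end Pool.Agent.Helper1K9.PK
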