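import Pool.Agent.Helper1K9.PK.GT
import Pool.Agent.Helper1K9.PK.Defs
import Pool.Agent.TH466.QG.Strong

/-!
The varieties with a generically finite map to a closed subvariety of a cover, not contained in the
branch locus: they are of general type, and so are their closed subvarieties off a proper closed
subset.
-/

set_option autoImplicit false
set_option linter.overlappingInstances false

open FF Pool.Agent.W603.LV Pool.Agent.W602.GT Pool.Agent.TH466.QG

namespace Pool.Agent.Helper1K9.PK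

/-- algebraicity over a larger field -/
theorem alg_mono {k L : Type} [Field k] [Field L] [Algebra k L] {A B : IntermediateField k L}
    (h : A ≤ B) {x : L} (hx : IsAlgebraic A x) : IsAlgebraic B x := by
  obtain ⟨p, hp, hpx⟩ := hx
  let φ : A →+* B := (IntermediateField.inclusion h).toRingHom
  refine ⟨p.map φ, ?_, ?_⟩
  · rw [Ne, Polynomial.map_eq_zero]
    exact hp
  · rw [← hpx, Polynomial.aeval_def, Polynomial.eval₂_map, Polynomial.aeval_def]
    rfl

/-- sums over the factors with a nonconstant function -/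
theorem sum_ext_zero {n : ℕ} {s : Fin n → ℕ} (I : Fin n → Prop) [DecidablePred I]
    (f : ∀ i, Fin (s i) → ℕ) (hf : ∀ i, ¬ I i → ∀ j, f i j = 0) :
    ∑ i, ∑ j, f i j = ∑ i : {i // I i}, ∑ j, f i j := by
  rw [← Fintype.sum_subtype_add_sum_subtype I (fun i => ∑ j, f i j)]
  rw [Finset.sum_eq_zero (s := (Finset.univ : Finset {i // ¬ I i})), add_zero]
  intro i _
  exact Finset.sum_eq_zero fun j _ => hf i.1 i.2 j

variable {n r : ℕ} (X : Cover n r)

/-- the congruences from orders of vanishing -/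
theorem dvd_of_ord {v : ∀ i, Fin (X.s i) → ℕ} {lam : Fin n → ℤ} {om : ℤ} {k : Fin r}
    (h : (X.m k : ℤ) * om = ∑ i, ∑ j, (X.e k i j : ℤ) * (v i j + lam i)) :
    X.m k ∣ ∑ i, ∑ j, X.e k i j * v i j := by
  have h1 : ∑ i, ∑ j, (X.e k i j : ℤ) * (v i j + lam i) =
      ((∑ i, ∑ j, X.e k i j * v i j : ℕ) : ℤ) + ∑ i, lam i * ((∑ j, X.e k i j : ℕ) : ℤ) := by
    push_cast
    rw [← Finset.sum_add_distrib]
    refine Finset.sum_congr rfl fun i _ => ?_
    rw [Finset.mul_sum, ← Finset.sum_add_distrib]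
    refine Finset.sum_congr rfl fun j _ => ?_
    ring
  have h2 : (X.m k : ℤ) ∣ ∑ i, lam i * ((∑ j, X.e k i j : ℕ) : ℤ) :=
    Finset.dvd_sum fun i _ => Dvd.dvd.mul_left (Int.natCast_dvd_natCast.2 (X.bal k i)) _
  have h3 : (X.m k : ℤ) ∣ ((∑ i, ∑ j, X.e k i j * v i j : ℕ) : ℤ) := by
    have h4 : ((∑ i, ∑ j, X.e k i j * v i j : ℕ) : ℤ) = X.m k * om -
        ∑ i, lam i * ((∑ j, X.e k i j : ℕ) : ℤ) := by
      rw [h, h1]
      ring
    rw [h4]
    exact dvd_sub (dvd_mul_right _ _) h2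
  exact Int.natCast_dvd_natCast.1 h3

theorem Cover.Pt.ne_zero {X : Cover n r} {L : Type} [Field L] [Algebra ℂ L] {t : Fin n → L}
    {y : Fin r → L} (h : X.Pt t y) (k : Fin r) : y k ≠ 0 := by
  intro h0
  have h1 := h.eq k
  rw [h0, zero_pow (X.m_pos k).ne'] at h1
  exact (Finset.prod_ne_zero_iff.2 fun i _ => Finset.prod_ne_zero_iff.2 fun j _ =>
    pow_ne_zero _ (sub_ne_zero.2 (h.off i j))) h1.symm

open Classical in
/-- the possible multiplicities at a place -/
theorem adm_of_place {L : Type} [Field L] [Algebra ℂ L] {t : Fin n → L} {y : Fin r → L}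
    (hpt : X.Pt t y) {p : ∀ i, Fin (X.s i) → ℕ} {Q : ℕ}
    (hp : ∀ v, X.Mult v → (∃ i j, v i j ≠ 0) → Q ≤ ∑ i, ∑ j, p i j * v i j)
    (τ : ∀ i, Fin (X.s i)) (P : Place ℂ L)
    (hint : ∀ i j, j ∈ X.bd i → P.Reg (t i - algebraMap ℂ L (X.c i j))⁻¹) (hs2 : ∀ i, 2 ≤ X.s i)
    (v : ∀ i : {i // Transcendental ℂ (t i)}, Fin (X.s i.1) → ℕ) (hv : ∃ i j, v i j ≠ 0)
    (hone : ∀ i j l, v i j ≠ 0 → v i l ≠ 0 → j = l)
    (hord : ∀ i, ∃ μ : ℤ, ∀ j, P.ord (1 - algebraMap ℂ L (X.c i.1 j - X.c i.1 (τ i.1)) *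
      (t i.1 - algebraMap ℂ L (X.c i.1 (τ i.1)))⁻¹) = (v i j : ℤ) - μ) :
    Q ≤ ∑ i, ∑ j, p i.1 j * v i j := by
  let I : Fin n → Prop := fun i => Transcendental ℂ (t i)
  have hne : ∀ i j, t i - algebraMap ℂ L (X.c i j) ≠ 0 := fun i j => sub_ne_zero.2 (hpt.off i j)
  have hx : ∀ i j, 1 - algebraMap ℂ L (X.c i j - X.c i (τ i)) *
      (t i - algebraMap ℂ L (X.c i (τ i)))⁻¹ =
      (t i - algebraMap ℂ L (X.c i j)) / (t i - algebraMap ℂ L (X.c i (τ i))) := by
    intro i j
    have h1 := hne i (τ i)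
    rw [map_sub]
    field_simp
    ring
  let v' : ∀ i, Fin (X.s i) → ℕ := fun i j => if h : I i then v ⟨i, h⟩ j else 0
  have hv'1 : ∀ i : {i // I i}, ∀ j, v' i.1 j = v i j := fun i j => dif_pos i.2
  have hv'0 : ∀ i, ¬ I i → ∀ j, v' i j = 0 := fun i hi j => dif_neg hi
  have hmult : X.Mult v' := by
    refine ⟨fun i j l h1 h2 => ?_, fun i j hj => ?_, fun k => ?_⟩
    · by_cases hi : I i
      · rw [hv'1 ⟨i, hi⟩] at h1 h2
        exact hone ⟨i, hi⟩ j l h1 h2
      · exact absurd (hv'0 i hi j) h1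
    · by_cases hi : I i
      · rw [hv'1 ⟨i, hi⟩]
        by_contra hvj
        have h1 : Nontrivial (Fin (X.s i)) := Fin.nontrivial_iff_two_le.2 (hs2 i)
        obtain ⟨l, hl⟩ := exists_ne j
        have hvl : v ⟨i, hi⟩ l = 0 := by
          by_contra h2
          exact hl (hone ⟨i, hi⟩ l j h2 hvj)
        obtain ⟨μ, hμ⟩ := hord ⟨i, hi⟩
        have e1 := hμ j
        have e2 := hμ l
        simp only at e1 e2
        rw [hx, P.ord_div (hne _ _) (hne _ _)] at e1 e2
        rw [hvl] at e2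
        have e3 : P.ord (t i - algebraMap ℂ L (X.c i l)) <
            P.ord (t i - algebraMap ℂ L (X.c i j)) := by
          have : 0 < v ⟨i, hi⟩ j := Nat.pos_of_ne_zero hvj
          push_cast at e2
          omega
        have e4 := P.ord_add_eq (f := t i - algebraMap ℂ L (X.c i l))
          (g := -(t i - algebraMap ℂ L (X.c i j))) (hne i l) (neg_ne_zero.2 (hne i j)) (by
            rw [P.ord_neg]
            exact e3)
        have e5 : t i - algebraMap ℂ L (X.c i l) + -(t i - algebraMap ℂ L (X.c i j)) =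
            algebraMap ℂ L (X.c i j - X.c i l) := by
          rw [map_sub]
          ring
        rw [e5, P.ord_const (sub_ne_zero.2 fun h => hl (X.c_inj i h).symm)] at e4
        have e6 := (hint i j hj).resolve_left (inv_ne_zero (hne i j))
        rw [P.ord_inv] at e6
        have e7 := e4.2
        omega
      · exact hv'0 i hi j
    · have hlam : ∀ i, ∃ lam : ℤ, ∀ j, P.ord (t i - algebraMap ℂ L (X.c i j)) = v' i j + lam := by
        intro i
        by_cases hi : I i
        · obtain ⟨μ, hμ⟩ := hord ⟨i, hi⟩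
          refine ⟨P.ord (t i - algebraMap ℂ L (X.c i (τ i))) - μ, fun j => ?_⟩
          have h1 := hμ j
          simp only at h1
          rw [hx, P.ord_div (hne _ _) (hne _ _)] at h1
          rw [hv'1 ⟨i, hi⟩]
          linarith
        · refine ⟨0, fun j => ?_⟩
          rw [hv'0 i hi, add_zero, Nat.cast_zero]
          have h1 : IsAlgebraic ℂ (t i) := not_not.1 hi
          obtain ⟨c, hc⟩ := const_of_algebraic h1
          have h2 := hne i j
          rw [hc, ← map_sub] at h2 ⊢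
          exact P.ord_const ((map_ne_zero _).1 h2)
      choose lam hlam using hlam
      refine dvd_of_ord X (v := v') (lam := lam) (om := P.ord (y k)) ?_
      have h1 := congrArg P.ord (hpt.eq k)
      rw [P.ord_pow, ord_prod_univ P _ _ fun i _ => Finset.prod_ne_zero_iff.2 fun j _ =>
        pow_ne_zero _ (hne i j)] at h1
      rw [h1]
      refine Finset.sum_congr rfl fun i _ => ?_
      rw [ord_prod_univ P _ _ fun j _ => pow_ne_zero _ (hne i j)]
      refine Finset.sum_congr rfl fun j _ => ?_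
      rw [P.ord_pow, hlam]
  have hex : ∃ i j, v' i j ≠ 0 := by
    obtain ⟨i, j, hij⟩ := hv
    exact ⟨i.1, j, by rwa [hv'1]⟩
  have h1 := hp v' hmult hex
  rw [sum_ext_zero I (fun i j => p i j * v' i j) (fun i hi j => by rw [hv'0 i hi, mul_zero])]
    at h1
  refine h1.trans (le_of_eq ?_)
  refine Finset.sum_congr rfl fun i _ => Finset.sum_congr rfl fun j _ => ?_
  rw [hv'1]

/-- there are branch points -/
theorem s_pos {p : ∀ i, Fin (X.s i) → ℕ} {Q : ℕ}
    (hb : ∀ i, n * ∑ j, p i j + 2 * Q < Q * X.s i) (i : Fin n) : 0 < X.s i := by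
  have h1 : 0 < Q * X.s i := lt_of_le_of_lt (Nat.zero_le _) (hb i)
  exact Nat.pos_of_ne_zero fun h0 => by
    rw [h0, mul_zero] at h1
    exact lt_irrefl _ h1

theorem s_two {p : ∀ i, Fin (X.s i) → ℕ} {Q : ℕ}
    (hb : ∀ i, n * ∑ j, p i j + 2 * Q < Q * X.s i) (i : Fin n) : 2 ≤ X.s i := by
  have h1 : 2 * Q < Q * X.s i := lt_of_le_of_lt (Nat.le_add_left _ _) (hb i)
  by_contra h2
  have h3 : Q * X.s i ≤ Q * 1 := Nat.mul_le_mul_left Q (by omega)
  omega

theorem card_le {I : Fin n → Prop} [DecidablePred I] {p : ∀ i, Fin (X.s i) → ℕ} {Q : ℕ}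
    (hb : ∀ i, n * ∑ j, p i j + 2 * Q < Q * X.s i) (i : Fin n) :
    Fintype.card {i // I i} * ∑ j, p i j + 2 * Q < Q * X.s i := by
  have h1 := hb i
  have h2 : Fintype.card {i // I i} ≤ n := by
    have := Fintype.card_subtype_le I
    rwa [Fintype.card_fin] at this
  have h3 := Nat.mul_le_mul_right (∑ j, p i j) h2
  omega

/-- **Log general type.** -/
theorem logGeneralType (hX : X.Big) {L : Type} [Field L] [Algebra ℂ L] {t : Fin n → L}
    {y : Fin r → L} (hpt : X.Pt t y)
    (halg : Algebra.IsAlgebraic (IntermediateField.adjoin ℂ (Set.range t)) L) {w : ℕ}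
    (hw : Algebra.trdeg ℂ L = w) (hw1 : 1 ≤ w) {Bd : Place ℂ L → Prop}
    (hBd : ∀ P, ¬ Bd P → ∀ i j, j ∈ X.bd i → P.Reg (t i - algebraMap ℂ L (X.c i j))⁻¹) :
    LogGeneralType ℂ L w Bd := by
  classical
  obtain ⟨p, Q, hQ, hp, hb⟩ := hX
  let I : Fin n → Prop := fun i => Transcendental ℂ (t i)
  let τ : ∀ i, Fin (X.s i) := fun i => ⟨0, s_pos X hb i⟩
  have htr : ∀ i : {i // I i}, Transcendental ℂ (t i.1 - algebraMap ℂ L (X.c i.1 (τ i.1)))⁻¹ := by
    intro i h
    apply i.2
    have h1 := h.inv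
    rw [inv_inv] at h1
    have h2 := h1.add (isAlgebraic_algebraMap (X.c i.1 (τ i.1)))
    rwa [sub_add_cancel] at h2
  refine lgt_core (ι := {i // I i}) (s := fun i => X.s i.1)
    (fun i j => X.c i.1 j - X.c i.1 (τ i.1)) (fun i => τ i.1) (fun i => sub_self _)
    (fun i j l h => X.c_inj i.1 (sub_left_injective h))
    (fun i => (t i.1 - algebraMap ℂ L (X.c i.1 (τ i.1)))⁻¹) htr ?_ hw hw1 (fun i j => p i.1 j) hQ
    (fun i => card_le X hb i.1) (fun P hP v hv hone hord =>
      adm_of_place X hpt hp τ P (hBd P hP) (s_two X hb) v hv hone hord)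
  -- the functions generate
  have hle : IntermediateField.adjoin ℂ (Set.range t) ≤ IntermediateField.adjoin ℂ
      (Set.range fun i : {i // I i} => (t i.1 - algebraMap ℂ L (X.c i.1 (τ i.1)))⁻¹) := by
    rw [IntermediateField.adjoin_le_iff]
    rintro _ ⟨i, rfl⟩
    by_cases hi : I i
    · have h1 : (t i - algebraMap ℂ L (X.c i (τ i)))⁻¹ ∈ IntermediateField.adjoin ℂ
          (Set.range fun i : {i // I i} => (t i.1 - algebraMap ℂ L (X.c i.1 (τ i.1)))⁻¹) :=
        IntermediateField.subset_adjoin _ _ ⟨⟨i, hi⟩, rfl⟩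
      have h2 := add_mem (inv_mem h1) (IntermediateField.algebraMap_mem _ (X.c i (τ i)))
      rw [inv_inv, sub_add_cancel] at h2
      exact h2
    · have h1 : IsAlgebraic ℂ (t i) := not_not.1 hi
      obtain ⟨c, hc⟩ := const_of_algebraic h1
      rw [hc]
      exact IntermediateField.algebraMap_mem _ c
  exact ⟨fun x => alg_mono hle (halg.isAlgebraic x)⟩

/-- algebraic elements stay algebraic under specialization -/
theorem alg_spec0 {k L : Type} [Field k] [Field L] [Algebra k L] {n : ℕ} {t : Fin n → L} {x : L}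
    (hx : IsAlgebraic (IntermediateField.adjoin k (Set.range t)) x) : ∃ Θ : Set L, Θ.Finite ∧
      ∀ (E : Type) [Field E] [Algebra k E] (S : Sp k L E), (∀ ϑ ∈ Θ, ∃ u, S.T ϑ u) →
        ∀ t' : Fin n → E, (∀ i, S.T (t i) (t' i)) → ∀ z, S.T x z →
        IsAlgebraic (IntermediateField.adjoin k (Set.range t')) z := by
  classical
  obtain ⟨f, hf⟩ : ∃ f, f = minpoly (IntermediateField.adjoin k (Set.range t)) x := ⟨_, rfl⟩
  have hint : IsIntegral (IntermediateField.adjoin k (Set.range t)) x := hx.isIntegral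
  have hmon : f.Monic := by rw [hf]; exact minpoly.monic hint
  have h0 : Polynomial.aeval x f = 0 := by rw [hf]; exact minpoly.aeval _ _
  have hco : ∀ i, ∃ G H : MvPolynomial (Fin n) k, MvPolynomial.aeval t H ≠ 0 ∧
      ((f.coeff i : IntermediateField.adjoin k (Set.range t)) : L) =
        MvPolynomial.aeval t G * (MvPolynomial.aeval t H)⁻¹ := by
    intro i
    obtain ⟨G, H, h⟩ := (IntermediateField.mem_adjoin_range_iff k t (f.coeff i : L)).1
      (f.coeff i).2
    by_cases hH : MvPolynomial.aeval t H = 0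
    · refine ⟨0, 1, ?_, ?_⟩
      · rw [map_one]
        exact one_ne_zero
      · rw [h, hH, div_zero, map_zero, zero_mul]
    · exact ⟨G, H, hH, by rw [h, div_eq_mul_inv]⟩
  choose G H hH hGH using hco
  refine ⟨(fun i => (MvPolynomial.aeval t (H i))⁻¹) '' (Finset.range (f.natDegree + 1)),
    (Finset.finite_toSet _).image _, ?_⟩
  intro E _ _ S hS t' ht z hz
  have hval : ∀ F : MvPolynomial (Fin n) k,
      S.T (MvPolynomial.aeval t F) (MvPolynomial.aeval t' F) := by
    intro F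
    rw [MvPolynomial.aeval_def, MvPolynomial.aeval_def, MvPolynomial.eval₂_eq',
      MvPolynomial.eval₂_eq']
    exact S.sum _ fun α _ => S.mul (S.const _) (S.prod _ fun i _ => S.pow (ht i) _)
  have hmem : ∀ F : MvPolynomial (Fin n) k,
      MvPolynomial.aeval t' F ∈ IntermediateField.adjoin k (Set.range t') := by
    intro F
    have h3 : MvPolynomial.aeval t' F ∈ Algebra.adjoin k (Set.range t') := by
      rw [Algebra.adjoin_range_eq_range_aeval]
      exact ⟨F, rfl⟩
    exact IntermediateField.algebra_adjoin_le_adjoin _ _ h3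
  have hc : ∀ i ∈ Finset.range (f.natDegree + 1), ∃ c' : IntermediateField.adjoin k (Set.range t'),
      S.T (f.coeff i : L) c' := by
    intro i hi
    have h1 : ∃ u, S.T (MvPolynomial.aeval t (H i))⁻¹ u := hS _ ⟨i, hi, rfl⟩
    refine ⟨⟨MvPolynomial.aeval t' (G i) * (MvPolynomial.aeval t' (H i))⁻¹,
      mul_mem (hmem _) (inv_mem (hmem _))⟩, ?_⟩
    rw [hGH i]
    exact S.mul (hval _) (S.inv (hval _) h1 (hH i))
  have hc' : ∀ i, ∃ c' : IntermediateField.adjoin k (Set.range t'),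
      i ∈ Finset.range (f.natDegree + 1) → S.T (f.coeff i : L) c' := by
    intro i
    by_cases hi : i ∈ Finset.range (f.natDegree + 1)
    · obtain ⟨c', h⟩ := hc i hi
      exact ⟨c', fun _ => h⟩
    · exact ⟨0, fun h => absurd h hi⟩
  choose c' hc' using hc'
  have hlead : (c' f.natDegree : E) = 1 := by
    have h1 := hc' f.natDegree (Finset.mem_range.2 (Nat.lt_succ_self _))
    rw [hmon.coeff_natDegree] at h1
    exact S.ext h1 S.one
  refine ⟨∑ i ∈ Finset.range (f.natDegree + 1), Polynomial.C (c' i) * Polynomial.X ^ i, ?_, ?_⟩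
  · intro h0
    have h1 := congrArg (fun p => Polynomial.coeff p f.natDegree) h0
    simp only [Polynomial.finsetSum_coeff, Polynomial.coeff_C_mul, Polynomial.coeff_X_pow,
      Polynomial.coeff_zero, mul_ite, mul_one, mul_zero, Finset.sum_ite_eq,
      Finset.mem_range, Nat.lt_succ_self, if_true] at h1
    rw [h1] at hlead
    exact zero_ne_one hlead
  · have h1 : Polynomial.aeval z (∑ i ∈ Finset.range (f.natDegree + 1),
        Polynomial.C (c' i) * Polynomial.X ^ i) =
        ∑ i ∈ Finset.range (f.natDegree + 1), (c' i : E) * z ^ i := by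
      rw [map_sum]
      refine Finset.sum_congr rfl fun i _ => ?_
      rw [map_mul, Polynomial.aeval_C, map_pow, Polynomial.aeval_X]
      rfl
    rw [h1]
    have h2 := S.sum (Finset.range (f.natDegree + 1))
      (fun i hi => S.mul (hc' i hi) (S.pow hz i))
    refine S.eq_zero h2 ?_
    rw [Polynomial.aeval_eq_sum_range] at h0
    simp only [Algebra.smul_def] at h0
    exact h0

/-- specializations which are defined on given elements -/
theorem spread0 {k L : Type} [Field k] [Field L] [Algebra k L] {σ : Type} {x : σ → L}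
    (hx : IntermediateField.adjoin k (Set.range x) = ⊤) {Θ : Set L} (hΘ : Θ.Finite) :
    ∃ H : MvPolynomial σ k, MvPolynomial.aeval x H ≠ 0 ∧
      ∀ (E : Type) [Field E] [Algebra k E] (z : σ → E),
        (∀ G : MvPolynomial σ k, MvPolynomial.aeval x G = 0 → MvPolynomial.aeval z G = 0) →
        MvPolynomial.aeval z H ≠ 0 →
        ∃ S : Sp k L E, (∀ i, S.T (x i) (z i)) ∧ ∀ ϑ ∈ Θ, ∃ u, S.T ϑ u := by
  obtain ⟨H, hH, hG⟩ := exists_den hx hΘ
  refine ⟨H, hH, fun E _ _ z hz hzH => ?_⟩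
  let α : graph k x z →ₐ[k] L := (AlgHom.fst k L E).comp (graph k x z).val
  let β : graph k x z →ₐ[k] E := (AlgHom.snd k L E).comp (graph k x z).val
  have hker : ∀ b, α b = 0 → β b = 0 := by
    rintro ⟨⟨a, a'⟩, G, H', h1, h2, h3, h4⟩ h0
    change a = 0 at h0
    change a' = 0
    simp only at h3 h4
    rw [h0, zero_mul] at h3
    rw [hz G h3.symm] at h4
    exact (mul_eq_zero.1 h4).resolve_right h2
  refine ⟨Sp.ofHom α β hker, fun i => ?_, fun ϑ hϑ => ?_⟩
  · exact ⟨⟨(x i, z i), MvPolynomial.X i, 1, by rw [map_one]; exact one_ne_zero, by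
      rw [map_one]; exact one_ne_zero, by simp, by simp⟩, rfl, rfl⟩
  · obtain ⟨G, hG'⟩ := hG ϑ hϑ
    exact ⟨MvPolynomial.aeval z G / MvPolynomial.aeval z H,
      ⟨(ϑ, MvPolynomial.aeval z G / MvPolynomial.aeval z H), G, H, hH, hzH, hG',
        div_mul_cancel₀ _ hzH⟩, rfl, rfl⟩

/-- **Specialization of the points of a cover.** -/
theorem spec_pt {L : Type} [Field L] [Algebra ℂ L] {t : Fin n → L} {y : Fin r → L}
    (hpt : X.Pt t y) (halg : Algebra.IsAlgebraic (IntermediateField.adjoin ℂ (Set.range t)) L)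
    {σ : Type} [Finite σ] {x : σ → L} (hx : IntermediateField.adjoin ℂ (Set.range x) = ⊤) :
    ∃ H : MvPolynomial σ ℂ, MvPolynomial.aeval x H ≠ 0 ∧
      ∀ (E : Type) [Field E] [Algebra ℂ E] (z : σ → E),
        (∀ G : MvPolynomial σ ℂ, MvPolynomial.aeval x G = 0 → MvPolynomial.aeval z G = 0) →
        MvPolynomial.aeval z H ≠ 0 →
        ∃ (S : Sp ℂ L E) (t' : Fin n → E) (y' : Fin r → E), (∀ m, S.T (x m) (z m)) ∧
          X.Pt (L := E) t' y' ∧
          (∀ i j, S.T (t i - algebraMap ℂ L (X.c i j))⁻¹ (t' i - algebraMap ℂ E (X.c i j))⁻¹) ∧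
          ∀ m, IsAlgebraic (IntermediateField.adjoin ℂ (Set.range t')) (z m) := by
  classical
  have h1 := fun m => alg_spec0 (halg.isAlgebraic (x m))
  choose Θ hΘ hspec using h1
  let Θ' : Set L := (⋃ m, Θ m) ∪ (Set.range t ∪ (Set.range y ∪
    Set.range fun ij : Σ i, Fin (X.s i) => (t ij.1 - algebraMap ℂ L (X.c ij.1 ij.2))⁻¹))
  have hΘ' : Θ'.Finite := (Set.finite_iUnion hΘ).union
    ((Set.finite_range _).union ((Set.finite_range _).union (Set.finite_range _)))
  obtain ⟨H, hH, hH2⟩ := spread0 hx hΘ'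
  refine ⟨H, hH, fun E _ _ z hz hzH => ?_⟩
  obtain ⟨S, hSx, hSΘ⟩ := hH2 E z hz hzH
  have hSt : ∀ i, ∃ u, S.T (t i) u := fun i => hSΘ _ (Or.inr (Or.inl ⟨i, rfl⟩))
  have hSy : ∀ k, ∃ u, S.T (y k) u := fun k => hSΘ _ (Or.inr (Or.inr (Or.inl ⟨k, rfl⟩)))
  have hSi : ∀ i j, ∃ u, S.T (t i - algebraMap ℂ L (X.c i j))⁻¹ u := fun i j =>
    hSΘ _ (Or.inr (Or.inr (Or.inr ⟨⟨i, j⟩, rfl⟩)))
  choose t' ht' using hSt
  choose y' hy' using hSy
  have hsub : ∀ i j, S.T (t i - algebraMap ℂ L (X.c i j)) (t' i - algebraMap ℂ E (X.c i j)) :=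
    fun i j => S.sub (ht' i) (S.const _)
  refine ⟨S, t', y', hSx, ⟨fun k => ?_, fun i j => ?_⟩, fun i j => ?_, fun m => ?_⟩
  · refine S.ext (x := y k ^ X.m k) (S.pow (hy' k) _) ?_
    rw [hpt.eq k]
    exact S.prod _ fun i _ => S.prod _ fun j _ => S.pow (hsub i j) _
  · exact sub_ne_zero.1 (S.ne_zero (hsub i j) (hSi i j) (sub_ne_zero.2 (hpt.off i j)))
  · exact S.inv (hsub i j) (hSi i j) (sub_ne_zero.2 (hpt.off i j))
  · exact hspec m E S (fun ϑ hϑ => hSΘ _ (Or.inl (Set.mem_iUnion.2 ⟨m, hϑ⟩))) t' ht' _ (hSx m)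

/-- values of forms at normalized coordinates -/
theorem aeval_norm {L : Type} [Field L] [Algebra ℂ L] {M d : ℕ} {G : MvPolynomial (Fin (M + 1)) ℂ}
    (hG : G.IsHomogeneous d) {x : Fin (M + 1) → L} {i1 : Fin (M + 1)} (hi1 : x i1 ≠ 0) :
    MvPolynomial.aeval x G = x i1 ^ d * MvPolynomial.aeval (fun i => x i / x i1) G := by
  have h1 := val_smul hG (x i1) (fun i => x i / x i1)
  have h2 : (fun i => x i1 * (x i / x i1)) = x := by
    funext i
    field_simp
  rw [h2] at h1
  exact h1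

/-- regular functions specialize to regular functions -/
theorem RegularOn.spec {M : ℕ} {U : Set (Fin (M + 1))} {L E : Type} [Field L] [Algebra ℂ L]
    [Field E] [Algebra ℂ E] {x : Fin (M + 1) → L} {z : Fin (M + 1) → E} {f : L} {f' : E}
    (h : RegularOn U x f) (S : Sp ℂ L E) {i1 : Fin (M + 1)} (hx : x i1 ≠ 0) (hz : z i1 ≠ 0)
    (hS : ∀ m, S.T (x m / x i1) (z m / z i1)) (hf : S.T f f') : RegularOn U z f' := by
  obtain ⟨a, G, ha, hG, hfG⟩ := h
  refine ⟨a, G, ha, hG, ?_⟩
  have h1 : f * ∏ l, (x l / x i1) ^ a l = MvPolynomial.aeval (fun i => x i / x i1) G := by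
    rw [aeval_norm hG hx] at hfG
    have h2 : ∏ l, (x l / x i1) ^ a l = (∏ l, x l ^ a l) / x i1 ^ ∑ l, a l := by
      rw [← Finset.prod_pow_eq_pow_sum, ← Finset.prod_div_distrib]
      exact Finset.prod_congr rfl fun l _ => div_pow _ _ _
    rw [h2, ← mul_div_assoc, hfG]
    have h3 : x i1 ^ ∑ l, a l ≠ 0 := pow_ne_zero _ hx
    field_simp
  have h2 : f' * ∏ l, (z l / z i1) ^ a l = MvPolynomial.aeval (fun i => z i / z i1) G := by
    refine S.ext (x := f * ∏ l, (x l / x i1) ^ a l)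
      (S.mul hf (S.prod _ fun l _ => S.pow (hS l) _)) ?_
    rw [h1]
    exact S.val hS G
  rw [aeval_norm hG hz, ← h2]
  have h3 : ∏ l, (z l / z i1) ^ a l = (∏ l, z l ^ a l) / z i1 ^ ∑ l, a l := by
    rw [← Finset.prod_pow_eq_pow_sum, ← Finset.prod_div_distrib]
    exact Finset.prod_congr rfl fun l _ => div_pow _ _ _
  rw [h3]
  have h4 : z i1 ^ ∑ l, a l ≠ 0 := pow_ne_zero _ hz
  field_simp

/-- the order of the value of a form -/
theorem ge_form {E : Type} [Field E] [Algebra ℂ E] {P : Place ℂ E} {M d : ℕ}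
    {G : MvPolynomial (Fin (M + 1)) ℂ} (hG : G.IsHomogeneous d) {z : Fin (M + 1) → E} {μ : ℤ}
    (hμ : ∀ i, Ge P μ (z i)) : Ge P (d * μ) (MvPolynomial.aeval z G) := by
  rw [MvPolynomial.aeval_def, MvPolynomial.eval₂_eq']
  refine Ge.sum _ _ fun α hα => ?_
  have h1 := Ge.prod (P := P) Finset.univ (fun i => z i ^ α i) (fun i => (α i : ℤ) * μ)
    (fun i _ => (hμ i).pow (α i))
  have h2 := (Ge.const (P := P) (MvPolynomial.coeff α G)).mul h1
  refine h2.mono (le_of_eq ?_)
  rw [zero_add, ← Finset.sum_mul]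
  congr 1
  have h3 := hG (MvPolynomial.mem_support_iff.1 hα)
  rw [Finsupp.weight_apply, Finsupp.sum_fintype _ _ (fun i => by simp)] at h3
  simp only [Pi.one_apply, smul_eq_mul, mul_one] at h3
  exact_mod_cast h3.symm

/-- regular functions are regular at the places with centre on the variety -/
theorem RegularOn.reg {M : ℕ} {U : Set (Fin (M + 1))} {E : Type} [Field E] [Algebra ℂ E]
    {z : Fin (M + 1) → E} {f : E} (h : RegularOn U z f) (hzU : ∀ l ∈ U, z l ≠ 0)
    {P : Place ℂ E} (hP : ¬ OffU U z P) : P.Reg f := by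
  classical
  obtain ⟨a, G, ha, hG, hfG⟩ := h
  unfold OffU at hP
  push Not at hP
  have hprod : ∏ l, z l ^ a l ≠ 0 := by
    refine Finset.prod_ne_zero_iff.2 fun l _ => ?_
    by_cases hl : l ∈ U
    · exact pow_ne_zero _ (hzU l hl)
    · rw [ha l hl, pow_zero]
      exact one_ne_zero
  have hG' : Ge P (∑ l, (a l : ℤ) * P.ord (z l)) (MvPolynomial.aeval z G) := by
    by_cases hU : ∃ l0, l0 ∈ U
    · obtain ⟨l0, hl0⟩ := hU
      have h1 := ge_form (P := P) hG (z := z) (μ := P.ord (z l0)) (fun i => by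
        by_cases hi : z i = 0
        · exact Or.inl hi
        · exact Or.inr (hP l0 hl0 i hi))
      refine h1.mono (le_of_eq ?_)
      push_cast
      rw [Finset.sum_mul]
      refine Finset.sum_congr rfl fun l _ => ?_
      by_cases hl : l ∈ U
      · rw [le_antisymm (hP l hl l0 (hzU l0 hl0)) (hP l0 hl0 l (hzU l hl))]
      · rw [ha l hl]
        simp
    · push Not at hU
      have h0 : ∀ l, a l = 0 := fun l => ha l (hU l)
      simp only [h0, Nat.cast_zero, zero_mul, Finset.sum_const_zero]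
      simp only [h0, Finset.sum_const_zero] at hG
      rw [← MvPolynomial.totalDegree_zero_iff_isHomogeneous] at hG
      rw [MvPolynomial.totalDegree_eq_zero_iff_eq_C.1 hG, MvPolynomial.aeval_C]
      exact Ge.const _
  have h2 : f = MvPolynomial.aeval z G / ∏ l, z l ^ a l := by
    rw [← hfG]
    field_simp
  have h3 : P.ord (∏ l, z l ^ a l) = ∑ l, (a l : ℤ) * P.ord (z l) := by
    rw [ord_prod_univ P _ _ fun l hl => Finset.prod_ne_zero_iff.1 hprod l hl]
    exact Finset.sum_congr rfl fun l _ => P.ord_pow _ _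
  rw [h2]
  have h4 := ge_div hprod hG'
  rw [h3, sub_self] at h4
  exact h4

end Pool.Agent.Helper1K9.PK
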