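import Mathlib

/-!
Counting of tuples, and an elementary inequality for linear functions in one variable.
-/

set_option autoImplicit false

namespace Pool.Agent.Helper1K9.PK

section count

variable {ι : Type} [Fintype ι] [DecidableEq ι] {s : ι → ℕ}

/-- the number of the tuples with a given entry -/
def nn (s : ι → ℕ) (i : ι) (j : Fin (s i)) : ℕ :=
  (Finset.univ.filter fun σ : ∀ i, Fin (s i) => σ i = j).card

theorem one_le_nn (τ : ∀ i, Fin (s i)) (i : ι) (j : Fin (s i)) : 1 ≤ nn s i j := by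
  unfold nn
  rw [Nat.one_le_iff_ne_zero, Ne, Finset.card_eq_zero, ← Ne, ← Finset.nonempty_iff_ne_empty]
  exact ⟨Function.update τ i j, by simp⟩

theorem sum_nn (i : ι) : ∑ j, nn s i j = Fintype.card (∀ i, Fin (s i)) := by
  unfold nn
  rw [← Finset.card_eq_sum_card_fiberwise (f := fun σ : ∀ i, Fin (s i) => σ i)
    (s := Finset.univ) (t := Finset.univ) (fun _ _ => Finset.mem_coe.2 (Finset.mem_univ _)),
    Finset.card_univ]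

theorem prod_tuples {R : Type} [CommMonoid R] (f : ∀ i, Fin (s i) → R) :
    ∏ σ : ∀ i, Fin (s i), ∏ i, f i (σ i) = ∏ i, ∏ j, f i j ^ nn s i j := by
  rw [Finset.prod_comm]
  refine Finset.prod_congr rfl fun i _ => ?_
  rw [← Finset.prod_fiberwise Finset.univ (fun σ : ∀ i, Fin (s i) => σ i) (fun σ => f i (σ i))]
  refine Finset.prod_congr rfl fun j _ => ?_
  rw [Finset.prod_congr rfl (g := fun _ => f i j) (fun σ hσ => by
    rw [(Finset.mem_filter.1 hσ).2]), Finset.prod_const]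
  rfl

theorem sum_tuples {R : Type} [AddCommMonoid R] (f : ∀ i, Fin (s i) → R) :
    ∑ σ : ∀ i, Fin (s i), ∑ i, f i (σ i) = ∑ i, ∑ j, nn s i j • f i j := by
  rw [Finset.sum_comm]
  refine Finset.sum_congr rfl fun i _ => ?_
  rw [← Finset.sum_fiberwise Finset.univ (fun σ : ∀ i, Fin (s i) => σ i) (fun σ => f i (σ i))]
  refine Finset.sum_congr rfl fun j _ => ?_
  rw [Finset.sum_congr rfl (g := fun _ => f i j) (fun σ hσ => by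
    rw [(Finset.mem_filter.1 hσ).2]), Finset.sum_const]
  rfl

end count

/-- at most one of several linear functions is small -/
theorem lin_ineq {s : ℕ} (hs : 2 ≤ s) (b : Fin s → ℂ) (hinj : Function.Injective b) :
    ∃ C : ℝ, 1 ≤ C ∧ ∀ (ρ : ℂ) (D K M : ℝ), 0 ≤ K → 0 ≤ D →
      (∀ j, ‖1 - b j * ρ‖ ≤ M) → (∃ l, ‖1 - b l * ρ‖ = M) →
      (∀ j l, j ≠ l → ‖b l - b j‖ * D ≤ K * (‖1 - b j * ρ‖ * ‖1 - b l * ρ‖)) →
      D * M ^ (s - 2) ≤ C * K * ∏ j, ‖1 - b j * ρ‖ := by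
  classical
  set C1 : ℝ := 1 + ∑ j, ∑ l, ‖b l - b j‖⁻¹ with hC1
  set C2 : ℝ := 1 + ∑ j, ∑ l, ∑ q, (‖b j‖ + ‖b l‖ + 2 * ‖b q‖) * ‖b l - b j‖⁻¹ with hC2
  have hC1' : ∀ j l, ‖b l - b j‖⁻¹ ≤ C1 := by
    intro j l
    have h1 : ‖b l - b j‖⁻¹ ≤ ∑ l, ‖b l - b j‖⁻¹ :=
      Finset.single_le_sum (f := fun l => ‖b l - b j‖⁻¹) (fun _ _ => by positivity)
        (Finset.mem_univ l)
    have h2 : ∑ l, ‖b l - b j‖⁻¹ ≤ ∑ j, ∑ l, ‖b l - b j‖⁻¹ :=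
      Finset.single_le_sum (f := fun j => ∑ l, ‖b l - b j‖⁻¹)
        (fun _ _ => Finset.sum_nonneg fun _ _ => by positivity) (Finset.mem_univ j)
    linarith
  have hC11 : 1 ≤ C1 := by
    have : 0 ≤ ∑ j, ∑ l, ‖b l - b j‖⁻¹ :=
      Finset.sum_nonneg fun _ _ => Finset.sum_nonneg fun _ _ => by positivity
    linarith
  have hC2' : ∀ j l q, (‖b j‖ + ‖b l‖ + 2 * ‖b q‖) * ‖b l - b j‖⁻¹ ≤ C2 := by
    intro j l q
    have h1 : (‖b j‖ + ‖b l‖ + 2 * ‖b q‖) * ‖b l - b j‖⁻¹ ≤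
        ∑ q, (‖b j‖ + ‖b l‖ + 2 * ‖b q‖) * ‖b l - b j‖⁻¹ :=
      Finset.single_le_sum (f := fun q => (‖b j‖ + ‖b l‖ + 2 * ‖b q‖) * ‖b l - b j‖⁻¹)
        (fun _ _ => by positivity) (Finset.mem_univ q)
    have h2 : ∑ q, (‖b j‖ + ‖b l‖ + 2 * ‖b q‖) * ‖b l - b j‖⁻¹ ≤
        ∑ l, ∑ q, (‖b j‖ + ‖b l‖ + 2 * ‖b q‖) * ‖b l - b j‖⁻¹ :=
      Finset.single_le_sum (f := fun l => ∑ q, (‖b j‖ + ‖b l‖ + 2 * ‖b q‖) * ‖b l - b j‖⁻¹)
        (fun _ _ => Finset.sum_nonneg fun _ _ => by positivity) (Finset.mem_univ l)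
    have h3 : ∑ l, ∑ q, (‖b j‖ + ‖b l‖ + 2 * ‖b q‖) * ‖b l - b j‖⁻¹ ≤
        ∑ j, ∑ l, ∑ q, (‖b j‖ + ‖b l‖ + 2 * ‖b q‖) * ‖b l - b j‖⁻¹ :=
      Finset.single_le_sum
        (f := fun j => ∑ l, ∑ q, (‖b j‖ + ‖b l‖ + 2 * ‖b q‖) * ‖b l - b j‖⁻¹)
        (fun _ _ => Finset.sum_nonneg fun _ _ => Finset.sum_nonneg fun _ _ => by positivity)
        (Finset.mem_univ j)
    linarith
  have hC21 : 1 ≤ C2 := by
    have : 0 ≤ ∑ j, ∑ l, ∑ q, (‖b j‖ + ‖b l‖ + 2 * ‖b q‖) * ‖b l - b j‖⁻¹ :=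
      Finset.sum_nonneg fun _ _ => Finset.sum_nonneg fun _ _ => Finset.sum_nonneg fun _ _ => by
        positivity
    linarith
  refine ⟨C1 * C2 ^ (s - 1), one_le_mul_of_one_le_of_one_le hC11 (one_le_pow₀ hC21), ?_⟩
  intro ρ D K M hK hD hM hMl hKD
  obtain ⟨l0, hl0⟩ := hMl
  have hne : Nonempty (Fin s) := ⟨⟨0, by omega⟩⟩
  obtain ⟨j0, hj0⟩ := Finite.exists_min fun j => ‖1 - b j * ρ‖
  have hM0 : 0 ≤ M := (norm_nonneg _).trans (hM j0)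
  -- the others are large
  have hbig : ∀ j, j ≠ j0 → M ≤ C2 * ‖1 - b j * ρ‖ := by
    intro j hj
    have hd : 0 < ‖b j0 - b j‖ := norm_pos_iff.2 (sub_ne_zero.2 fun h => hj (hinj h).symm)
    have hX := hj0 j
    have h1 : ‖b j0 - b j‖ ≤ (‖b j‖ + ‖b j0‖) * ‖1 - b j * ρ‖ := by
      have e : b j0 - b j = b j0 * (1 - b j * ρ) - b j * (1 - b j0 * ρ) := by ring
      calc ‖b j0 - b j‖ = ‖b j0 * (1 - b j * ρ) - b j * (1 - b j0 * ρ)‖ := by rw [← e]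
        _ ≤ ‖b j0 * (1 - b j * ρ)‖ + ‖b j * (1 - b j0 * ρ)‖ := norm_sub_le _ _
        _ = ‖b j0‖ * ‖1 - b j * ρ‖ + ‖b j‖ * ‖1 - b j0 * ρ‖ := by rw [norm_mul, norm_mul]
        _ ≤ ‖b j0‖ * ‖1 - b j * ρ‖ + ‖b j‖ * ‖1 - b j * ρ‖ := by gcongr
        _ = _ := by ring
    have h2 : ‖b j0 - b j‖ * ‖ρ‖ ≤ 2 * ‖1 - b j * ρ‖ := by
      have e : (b j0 - b j) * ρ = (1 - b j * ρ) - (1 - b j0 * ρ) := by ring
      calc ‖b j0 - b j‖ * ‖ρ‖ = ‖(1 - b j * ρ) - (1 - b j0 * ρ)‖ := by rw [← norm_mul, e]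
        _ ≤ ‖1 - b j * ρ‖ + ‖1 - b j0 * ρ‖ := norm_sub_le _ _
        _ ≤ _ := by linarith
    have h3 : ‖b j0 - b j‖ * M ≤ (‖b j‖ + ‖b j0‖ + 2 * ‖b l0‖) * ‖1 - b j * ρ‖ := by
      calc ‖b j0 - b j‖ * M = ‖b j0 - b j‖ * ‖1 - b l0 * ρ‖ := by rw [hl0]
        _ ≤ ‖b j0 - b j‖ * (1 + ‖b l0‖ * ‖ρ‖) := by
            gcongr
            refine (norm_sub_le _ _).trans ?_
            rw [norm_mul, norm_one]
        _ = ‖b j0 - b j‖ + ‖b l0‖ * (‖b j0 - b j‖ * ‖ρ‖) := by ring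
        _ ≤ (‖b j‖ + ‖b j0‖) * ‖1 - b j * ρ‖ + ‖b l0‖ * (2 * ‖1 - b j * ρ‖) := by gcongr
        _ = _ := by ring
    have h4 : M ≤ (‖b j‖ + ‖b j0‖ + 2 * ‖b l0‖) * ‖b j0 - b j‖⁻¹ * ‖1 - b j * ρ‖ := by
      have h5 : M = ‖b j0 - b j‖⁻¹ * (‖b j0 - b j‖ * M) := by
        field_simp
      rw [h5]
      calc ‖b j0 - b j‖⁻¹ * (‖b j0 - b j‖ * M) ≤ ‖b j0 - b j‖⁻¹ *
            ((‖b j‖ + ‖b j0‖ + 2 * ‖b l0‖) * ‖1 - b j * ρ‖) := by gcongr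
        _ = _ := by ring
    refine h4.trans ?_
    gcongr
    exact hC2' j j0 l0
  -- the derivative
  obtain ⟨k0, hk0⟩ : ∃ k0 : Fin s, k0 ≠ j0 := by
    have h1 : Nontrivial (Fin s) := Fin.nontrivial_iff_two_le.2 hs
    exact exists_ne j0
  have hDb : D ≤ C1 * K * (‖1 - b j0 * ρ‖ * M) := by
    have hd : 0 < ‖b k0 - b j0‖ := norm_pos_iff.2 (sub_ne_zero.2 fun h => hk0 (hinj h))
    have h1 := hKD j0 k0 hk0.symm
    calc D = ‖b k0 - b j0‖⁻¹ * (‖b k0 - b j0‖ * D) := by field_simp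
      _ ≤ C1 * (K * (‖1 - b j0 * ρ‖ * ‖1 - b k0 * ρ‖)) := by
          have := hC1' j0 k0
          gcongr
      _ ≤ C1 * (K * (‖1 - b j0 * ρ‖ * M)) := by
          have := hM k0
          gcongr
      _ = _ := by ring
  -- the product
  have hprod : ‖1 - b j0 * ρ‖ * M ^ (s - 1) ≤ C2 ^ (s - 1) * ∏ j, ‖1 - b j * ρ‖ := by
    rw [← Finset.mul_prod_erase Finset.univ _ (Finset.mem_univ j0)]
    have hc : (Finset.univ.erase j0).card = s - 1 := by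
      rw [Finset.card_erase_of_mem (Finset.mem_univ j0), Finset.card_univ, Fintype.card_fin]
    have h1 : M ^ (s - 1) ≤ C2 ^ (s - 1) * ∏ j ∈ Finset.univ.erase j0, ‖1 - b j * ρ‖ := by
      rw [← hc, ← Finset.prod_const, ← Finset.prod_const, ← Finset.prod_mul_distrib]
      exact Finset.prod_le_prod (fun _ _ => hM0) fun j hj => hbig j (Finset.ne_of_mem_erase hj)
    calc ‖1 - b j0 * ρ‖ * M ^ (s - 1) ≤ ‖1 - b j0 * ρ‖ *
          (C2 ^ (s - 1) * ∏ j ∈ Finset.univ.erase j0, ‖1 - b j * ρ‖) := by gcongr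
      _ = _ := by ring
  calc D * M ^ (s - 2) ≤ C1 * K * (‖1 - b j0 * ρ‖ * M) * M ^ (s - 2) := by gcongr
    _ = C1 * K * (‖1 - b j0 * ρ‖ * M ^ (s - 1)) := by
        have : s - 1 = (s - 2) + 1 := by omega
        rw [this, pow_succ]
        ring
    _ ≤ C1 * K * (C2 ^ (s - 1) * ∏ j, ‖1 - b j * ρ‖) := by gcongr
    _ = _ := by ring

end Pool.Agent.Helper1K9.PK
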