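import Pool.Agent.Helper1K9.PK.Plc
import Pool.Agent.Helper1K9.PK.Cnt

/-!
Meromorphic functions on the punctured disc with values in a product of lines which meet the fibres
over the branch points with high multiplicities (in a weighted sense) have no essential singularity.
-/

set_option autoImplicit false

open FF Pool.Agent.W603.LV Pool.Agent.W602.GT

namespace Pool.Agent.Helper1K9.PK

open Filter Metric Set Topology Pool.Agent.W603.BP Pool.Agent.Y221.AP Pool.Agent.W602.NC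
  Pool.Agent.W602.TL Pool.Agent.TH152.HY

variable {ι : Type} [Fintype ι] [DecidableEq ι] {s : ι → ℕ}

/-- the linear functions -/
noncomputable def xx (b : ∀ i, Fin (s i) → ℂ) (ρ : ι → MK) (i : ι) (j : Fin (s i)) : MK :=
  1 - algebraMap ℂ MK (b i j) * ρ i

/-- their products -/
noncomputable def uu (b : ∀ i, Fin (s i) → ℂ) (ρ : ι → MK) (σ : ∀ i, Fin (s i)) : MK :=
  ∏ i, xx b ρ i (σ i)

/-- the auxiliary function -/
noncomputable def FF' (b : ∀ i, Fin (s i) → ℂ) (ρ : ι → MK) (p : ∀ i, Fin (s i) → ℕ) (Q : ℕ)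
    (e : MK) : MK :=
  e ^ (Q * Fintype.card (∀ i, Fin (s i)) - 1) * ∏ i, (MD (ρ i) ^ Q *
    ∏ j, xx b ρ i j ^ (Q * (nn s i j - 1) + Fintype.card ι * p i j))

section orders

variable {b : ∀ i, Fin (s i) → ℂ} {τ : ∀ i, Fin (s i)} {ρ : ι → MK} {p : ∀ i, Fin (s i) → ℕ}
  {Q : ℕ}

theorem ord_uu (hρ : ∀ i, Transcendental ℂ (ρ i)) (P : Place ℂ MK)
    {v : ∀ i, Fin (s i) → ℕ}
    (hv : ∀ i j, P.ord (xx b ρ i j) = (v i j : ℤ) - v i (τ i)) (σ : ∀ i, Fin (s i)) :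
    P.ord (uu b ρ σ) = ∑ i, ((v i (σ i) : ℤ) - v i (τ i)) := by
  unfold uu
  have h0 : ∀ i j, xx b ρ i j ≠ 0 := fun i j => ne_of_transc (hρ i) _
  have h1 : ∀ (u : Finset ι), P.ord (∏ i ∈ u, xx b ρ i (σ i)) =
      ∑ i ∈ u, P.ord (xx b ρ i (σ i)) := by
    intro u
    induction u using Finset.induction_on with
    | empty => simp [P.ord_one]
    | insert a u ha ih =>
      rw [Finset.prod_insert ha, Finset.sum_insert ha,
        P.ord_mul (h0 _ _) (Finset.prod_ne_zero_iff.2 fun b _ => h0 _ _), ih]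
  rw [h1]
  exact Finset.sum_congr rfl fun i _ => hv i _

/-- the order of the auxiliary function -/
theorem ge_FF (hρ : ∀ i, Transcendental ℂ (ρ i)) (hQ : 0 < Q)
    (hbig : ∀ i, Fintype.card ι * ∑ j, p i j + 2 * Q < Q * s i) (P : Place ℂ MK)
    {v : ∀ i, Fin (s i) → ℕ} (hv : ∀ i j, P.ord (xx b ρ i j) = (v i j : ℤ) - v i (τ i))
    (hMD : ∀ i, Ge P (∑ j, (v i j : ℤ) - 2 * v i (τ i) - if ∃ j, v i j ≠ 0 then 1 else 0)
      (MD (ρ i)))
    (hadm : (∃ i j, v i j ≠ 0) → Q ≤ ∑ i, ∑ j, p i j * v i j) {e : MK}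
    (he : P.ord e = ∑ i, (v i (τ i) : ℤ)) :
    Ge P (Q * ∑ i, ∑ j, (nn s i j * v i j : ℤ)) (FF' b ρ p Q e) := by
  classical
  have h0 : ∀ i j, xx b ρ i j ≠ 0 := fun i j => ne_of_transc (hρ i) _
  obtain ⟨N, hN⟩ : ∃ N, N = Fintype.card (∀ i, Fin (s i)) := ⟨_, rfl⟩
  have hN1 : 1 ≤ N := by
    rw [hN]
    exact Fintype.card_pos_iff.2 ⟨τ⟩
  obtain ⟨r0, hr0⟩ : ∃ r0, r0 = Fintype.card ι := ⟨_, rfl⟩
  have hnn1 : ∀ i j, 1 ≤ nn s i j := fun i j => one_le_nn τ i j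
  have hsn : ∀ i, ∑ j, (nn s i j : ℤ) = N := by
    intro i
    have := sum_nn (s := s) i
    rw [← hN] at this
    exact_mod_cast this
  unfold FF'
  rw [← hN, ← hr0]
  have hfac : ∀ i, Ge P (Q * (∑ j, (v i j : ℤ) - 2 * v i (τ i) - if ∃ j, v i j ≠ 0 then 1 else 0) +
      ∑ j, ((Q * (nn s i j - 1) + r0 * p i j : ℤ)) * ((v i j : ℤ) - v i (τ i)))
      (MD (ρ i) ^ Q * ∏ j, xx b ρ i j ^ (Q * (nn s i j - 1) + r0 * p i j)) := by
    intro i
    refine ((hMD i).pow Q).mul ?_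
    refine Ge.prod Finset.univ _ _ fun j _ => ?_
    have h1 := (ge_ord P (xx b ρ i j)).pow (Q * (nn s i j - 1) + r0 * p i j)
    rw [hv] at h1
    refine h1.mono (le_of_eq ?_)
    congr 1
    have := hnn1 i j
    push_cast [Nat.cast_sub this]
    ring
  have htot := ((ge_ord P e).pow (Q * N - 1)).mul (Ge.prod Finset.univ _ _ fun i _ => hfac i)
  refine htot.mono ?_
  rw [he]
  have hQN : ((Q * N - 1 : ℕ) : ℤ) = Q * N - 1 := by
    have : 1 ≤ Q * N := Nat.mul_pos hQ hN1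
    push_cast [Nat.cast_sub this]
    ring
  rw [hQN]
  have hkap : ∀ i, (1 : ℤ) ≤ Q * (s i - 2) - r0 * ∑ j, (p i j : ℤ) := by
    intro i
    have h1 : (r0 : ℤ) * ∑ j, (p i j : ℤ) + 2 * Q < Q * s i := by
      rw [hr0]
      exact_mod_cast hbig i
    linarith
  have hid : (Q * N - 1 : ℤ) * ∑ i, (v i (τ i) : ℤ) +
      ∑ i, (Q * (∑ j, (v i j : ℤ) - 2 * v i (τ i) - if ∃ j, v i j ≠ 0 then 1 else 0) +
      ∑ j, ((Q * (nn s i j - 1) + r0 * p i j : ℤ)) * ((v i j : ℤ) - v i (τ i))) =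
      Q * ∑ i, ∑ j, (nn s i j * v i j : ℤ) + r0 * ∑ i, ∑ j, (p i j * v i j : ℤ) -
      Q * ∑ i, (if ∃ j, v i j ≠ 0 then 1 else 0 : ℤ) +
      ∑ i, (v i (τ i) : ℤ) * (Q * (s i - 2) - r0 * ∑ j, (p i j : ℤ) - 1) := by
    rw [Finset.mul_sum, Finset.mul_sum, Finset.mul_sum, Finset.mul_sum,
      ← Finset.sum_add_distrib, ← Finset.sum_add_distrib, ← Finset.sum_sub_distrib,
      ← Finset.sum_add_distrib]
    refine Finset.sum_congr rfl fun i _ => ?_
    have h2 : ∑ j, ((Q * (nn s i j - 1) + r0 * p i j : ℤ)) * ((v i j : ℤ) - v i (τ i)) =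
        Q * ∑ j, (nn s i j * v i j : ℤ) - Q * ∑ j, (v i j : ℤ) + r0 * ∑ j, (p i j * v i j : ℤ) -
        v i (τ i) * (Q * ∑ j, (nn s i j : ℤ) - Q * s i + r0 * ∑ j, (p i j : ℤ)) := by
      have h3 : (Q : ℤ) * s i = ∑ _j : Fin (s i), (Q : ℤ) := by
        rw [Finset.sum_const, Finset.card_univ, Fintype.card_fin, nsmul_eq_mul]
        ring
      rw [h3]
      simp only [Finset.mul_sum]
      rw [← Finset.sum_sub_distrib, ← Finset.sum_sub_distrib, ← Finset.sum_add_distrib,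
        ← Finset.sum_add_distrib, Finset.mul_sum, ← Finset.sum_sub_distrib]
      refine Finset.sum_congr rfl fun j _ => ?_
      ring
    rw [h2, hsn]
    ring
  rw [hid]
  have hnn : 0 ≤ ∑ i, (v i (τ i) : ℤ) * (Q * (s i - 2) - r0 * ∑ j, (p i j : ℤ) - 1) := by
    refine Finset.sum_nonneg fun i _ => ?_
    have h1 := hkap i
    have h2 : (0 : ℤ) ≤ v i (τ i) := by positivity
    nlinarith
  by_cases hvv : ∃ i j, v i j ≠ 0
  · have h1 : (Q : ℤ) ≤ ∑ i, ∑ j, (p i j * v i j : ℤ) := by exact_mod_cast hadm hvv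
    have h2 : ∑ i, (if ∃ j, v i j ≠ 0 then 1 else 0 : ℤ) ≤ r0 := by
      calc ∑ i, (if ∃ j, v i j ≠ 0 then 1 else 0 : ℤ) ≤ ∑ _i : ι, (1 : ℤ) := by
            refine Finset.sum_le_sum fun i _ => ?_
            split_ifs <;> simp
        _ = r0 := by rw [Finset.sum_const, Finset.card_univ, hr0]; simp
    have h3 : (0 : ℤ) ≤ r0 := by positivity
    have h4 : (0 : ℤ) ≤ Q := by positivity
    nlinarith
  · push Not at hvv
    have h1 : ∀ i, (if ∃ j, v i j ≠ 0 then 1 else 0 : ℤ) = 0 := by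
      intro i
      rw [if_neg]
      simp [hvv]
    simp only [h1, Finset.sum_const_zero, mul_zero, sub_zero]
    have h2 : (0 : ℤ) ≤ r0 * ∑ i, ∑ j, (p i j * v i j : ℤ) := by positivity
    linarith

end orders

end Pool.Agent.Helper1K9.PK
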