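import Pool.Agent.Helper1K9.PK.Ana
import Pool.Agent.Y221.AP.Inf

/-!
The second main theorem for meromorphic functions with values in a product of lines which meet the
fibres over the branch points with high multiplicities.
-/

set_option autoImplicit false

open FF Pool.Agent.W603.LV Pool.Agent.W602.GT

namespace Pool.Agent.Helper1K9.PK

open Filter Metric Set Topology Pool.Agent.W603.BP Pool.Agent.Y221.AP Pool.Agent.W602.NC
  Pool.Agent.W602.TL Pool.Agent.TH152.HY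

variable {ι : Type} [Fintype ι] [DecidableEq ι] {s : ι → ℕ}

omit [Fintype ι] [DecidableEq ι] in
theorem MD_xx (b : ∀ i, Fin (s i) → ℂ) (ρ : ι → MK) (i : ι) (j : Fin (s i)) :
    MD (xx b ρ i j) = -(algebraMap ℂ MK (b i j) * MD (ρ i)) := by
  have h1 : xx b ρ i j = algebraMap ℂ MK 1 + algebraMap ℂ MK (-(b i j)) * ρ i := by
    unfold xx
    rw [map_one, map_neg]
    ring
  rw [h1, MD_add, MD_const, MD_mul, MD_const, mul_zero, add_zero, zero_add, map_neg]
  ring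

omit [Fintype ι] [DecidableEq ι] in
theorem Fn_xx {b : ∀ i, Fin (s i) → ℂ} {ρ : ι → MK} {i : ι} {z : ℂ} (hz : z ∈ Om)
    (hreg : Reg (ρ i) z) (j : Fin (s i)) :
    Reg (xx b ρ i j) z ∧ Fn (xx b ρ i j) z = 1 - b i j * Fn (ρ i) z := by
  have h1 : xx b ρ i j ∈ Oz ⟨z, hz⟩ :=
    (Oz ⟨z, hz⟩).sub_mem (Oz ⟨z, hz⟩).one_mem
      ((Oz ⟨z, hz⟩).mul_mem ((Oz ⟨z, hz⟩).algebraMap_mem (b i j)) hreg)
  refine ⟨h1, ?_⟩
  have h2 := map_sub (evO ⟨z, hz⟩) 1 (algebraMap ℂ (Oz ⟨z, hz⟩) (b i j) * ⟨ρ i, hreg⟩)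
  rw [map_one, map_mul, AlgHom.commutes, evO_apply, evO_apply] at h2
  exact h2

omit [Fintype ι] [DecidableEq ι] in
/-- **The estimate of the derivative in calm discs.** -/
theorem der_calm {b : ∀ i, Fin (s i) → ℂ} {ρ : ι → MK} {i : ι} (hρ : Transcendental ℂ (ρ i))
    {j l : Fin (s i)} {z : ℂ} {ε B : ℝ} (hε : 0 < ε) (hball : closedBall z ε ⊆ Om)
    (hreg : Reg (ρ i) z) 
    (hr : ∀ w ∈ closedBall z ε, Reg (xx b ρ i j / xx b ρ i l) w ∧
      ‖Fn (xx b ρ i j / xx b ρ i l) w‖ ≤ B * ‖Fn (xx b ρ i j / xx b ρ i l) z‖) :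
    ‖b i l - b i j‖ * ‖Fn (MD (ρ i)) z‖ ≤
      B / ε * (‖Fn (xx b ρ i j) z‖ * ‖Fn (xx b ρ i l) z‖) := by
  have hz : z ∈ Om := hball (mem_closedBall_self hε.le)
  set x := xx b ρ i j with hxd
  set y := xx b ρ i l with hyd
  have hy0 : y ≠ 0 := ne_of_transc hρ _
  have hrz := (hr z (mem_closedBall_self hε.le)).1
  -- the derivative of the quotient
  have hMDx : MD x = -(algebraMap ℂ MK (b i j) * MD (ρ i)) := MD_xx b ρ i j
  have hMDy : MD y = -(algebraMap ℂ MK (b i l) * MD (ρ i)) := MD_xx b ρ i l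
  have hquot : MD (x / y) * y ^ 2 = algebraMap ℂ MK (b i l - b i j) * MD (ρ i) := by
    have h1 : x = (x / y) * y := (div_mul_cancel₀ _ hy0).symm
    have h2 : MD x = (x / y) * MD y + y * MD (x / y) := by
      conv_lhs => rw [h1]
      exact MD_mul _ _
    have h3 : MD (x / y) * y ^ 2 = y * MD x - x * MD y := by
      rw [h2]
      field_simp
      ring
    rw [h3, hMDx, hMDy, map_sub]
    rw [hxd, hyd]
    unfold xx
    ring
  -- evaluation
  have hyr : Reg y z := (Fn_xx hz hreg l).1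
  have hxr : Reg x z := (Fn_xx hz hreg j).1
  have hρ' : Reg (MD (ρ i)) z := hreg.MD hz
  have hq' : Reg (MD (x / y)) z := hrz.MD hz
  have hev : Fn (MD (x / y)) z * Fn y z ^ 2 = (b i l - b i j) * Fn (MD (ρ i)) z := by
    have h1 : (⟨MD (x / y), hq'⟩ : Oz ⟨z, hz⟩) * ⟨y, hyr⟩ ^ 2 =
        algebraMap ℂ (Oz ⟨z, hz⟩) (b i l - b i j) * ⟨MD (ρ i), hρ'⟩ := Subtype.ext hquot
    have h2 := congrArg (evO ⟨z, hz⟩) h1
    rw [map_mul, map_pow, map_mul, AlgHom.commutes] at h2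
    exact h2
  have hval : Fn (x / y) z * Fn y z = Fn x z := by
    have h1 : (⟨x / y, hrz⟩ : Oz ⟨z, hz⟩) * ⟨y, hyr⟩ = ⟨x, hxr⟩ :=
      Subtype.ext (div_mul_cancel₀ _ hy0)
    have h2 := congrArg (evO ⟨z, hz⟩) h1
    rw [map_mul] at h2
    exact h2
  -- Cauchy's estimate
  have hd : DiffContOnCl ℂ (Fn (x / y)) (ball z ε) := by
    refine DifferentiableOn.diffContOnCl_ball (U := closedBall z ε) ?_ subset_rfl
    intro w hw
    exact (hr w hw).1.differentiableAt.differentiableWithinAt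
  have h6 := Complex.norm_deriv_le_of_forall_mem_sphere_norm_le hε hd
    (fun w hw => (hr w (sphere_subset_closedBall hw)).2)
  have h7 : Fn (MD (x / y)) z = deriv (Fn (x / y)) z := (Fn_MD hz hrz).self_of_nhds
  rw [← h7] at h6
  have h8 : ‖b i l - b i j‖ * ‖Fn (MD (ρ i)) z‖ = ‖Fn (MD (x / y)) z‖ * ‖Fn y z‖ ^ 2 := by
    rw [← norm_mul, ← hev, norm_mul, norm_pow]
  rw [h8]
  calc ‖Fn (MD (x / y)) z‖ * ‖Fn y z‖ ^ 2 ≤ (B * ‖Fn (x / y) z‖ / ε) * ‖Fn y z‖ ^ 2 := by gcongr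
    _ = B / ε * ((‖Fn (x / y) z‖ * ‖Fn y z‖) * ‖Fn y z‖) := by ring
    _ = _ := by rw [← norm_mul, hval]

/-- **The second main theorem.** -/
theorem ana_core (b : ∀ i, Fin (s i) → ℂ) (τ : ∀ i, Fin (s i))
    (hb0 : ∀ i, b i (τ i) = 0) (hinj : ∀ i, Function.Injective (b i)) (ρ : ι → MK)
    (hρ : ∀ i, Transcendental ℂ (ρ i)) (p : ∀ i, Fin (s i) → ℕ) {Q : ℕ} (hQ : 0 < Q)
    (hbig : ∀ i, Fintype.card ι * ∑ j, p i j + 2 * Q < Q * s i)
    (hadm : ∀ (z : ℂ) (hz : z ∈ Om) (v : ∀ i, Fin (s i) → ℕ), (∃ i j, v i j ≠ 0) →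
      (∀ i j l, v i j ≠ 0 → v i l ≠ 0 → j = l) →
      (∀ i, ∃ μ : ℤ, ∀ j, (plc hz).ord (1 - algebraMap ℂ MK (b i j) * ρ i) = (v i j : ℤ) - μ) →
      Q ≤ ∑ i, ∑ j, p i j * v i j) (i : ι) : MInf (ρ i) := by
  classical
  have hs3 : ∀ i, 3 ≤ s i := by
    intro i
    have h1 := hbig i
    by_contra h2
    have h3 : Q * s i ≤ Q * 2 := Nat.mul_le_mul_left Q (by omega)
    omega
  have hx0 : ∀ i j, xx b ρ i j ≠ 0 := fun i j => ne_of_transc (hρ i) _
  have hu0' : ∀ σ, uu b ρ σ ≠ 0 := fun σ => Finset.prod_ne_zero_iff.2 fun i _ => hx0 i _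
  have hxτ : ∀ i, xx b ρ i (τ i) = 1 := by
    intro i
    unfold xx
    rw [hb0, map_zero, zero_mul, sub_zero]
  have huτ : uu b ρ τ = 1 := Finset.prod_eq_one fun i _ => hxτ i
  have huup : ∀ (i : ι) (j : Fin (s i)), uu b ρ (Function.update τ i j) = xx b ρ i j := by
    intro i j
    unfold uu
    rw [← Finset.mul_prod_erase Finset.univ _ (Finset.mem_univ i), Function.update_self]
    rw [Finset.prod_eq_one, mul_one]
    intro l hl
    rw [Function.update_of_ne (Finset.ne_of_mem_erase hl), hxτ]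
  -- the family
  have hneT : Nonempty (∀ i, Fin (s i)) := ⟨τ⟩
  obtain ⟨p', hp'⟩ : ∃ p', Fintype.card (∀ i, Fin (s i)) = p' + 1 :=
    Nat.exists_eq_succ_of_ne_zero Fintype.card_ne_zero
  let eT : Fin (p' + 1) ≃ (∀ i, Fin (s i)) := (Fintype.equivFinOfCardEq hp').symm
  let u : Fin (p' + 1) → MK := fun a => uu b ρ (eT a)
  have hue : ∀ σ, u (eT.symm σ) = uu b ρ σ := fun σ => by
    simp only [u, Equiv.apply_symm_apply]
  have hu : ∀ a, u a ≠ 0 := fun a => hu0' _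
  have hu0 : u (eT.symm τ) = 1 := by rw [hue, huτ]
  obtain ⟨e, U, hNr⟩ := exists_nrm u hu0
  -- local analysis
  have hloc : ∀ z (hz : z ∈ Om), ∃ v : ∀ i, Fin (s i) → ℕ,
      (∀ i j, (plc hz).ord (xx b ρ i j) = (v i j : ℤ) - v i (τ i)) ∧
      (∀ i j l, v i j ≠ 0 → v i l ≠ 0 → j = l) ∧
      (∀ i, Ge (plc hz) (∑ j, (v i j : ℤ) - 2 * v i (τ i) - if ∃ j, v i j ≠ 0 then 1 else 0)
        (MD (ρ i))) := by
    intro z hz
    choose v h1 h2 h3 using fun i => local_ana hz (hρ i) (b i) (τ i) (hb0 i) (hinj i)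
    exact ⟨v, h1, h2, h3⟩
  have horde : ∀ z (hz2 : z ∈ Ext 2) (v : ∀ i, Fin (s i) → ℕ),
      (∀ i j, (plc (sub_Om hz2)).ord (xx b ρ i j) = (v i j : ℤ) - v i (τ i)) →
      (∀ i j l, v i j ≠ 0 → v i l ≠ 0 → j = l) →
      (plc (sub_Om hz2)).ord e = ∑ i, (v i (τ i) : ℤ) ∧
        ∀ σ, (plc (sub_Om hz2)).ord (e * uu b ρ σ) = ∑ i, (v i (σ i) : ℤ) := by
    intro z hz2 v hv huniq
    set P := plc (sub_Om hz2) with hP
    have hmul : ∀ σ, P.ord (e * uu b ρ σ) = P.ord e + ∑ i, ((v i (σ i) : ℤ) - v i (τ i)) := by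
      intro σ
      rw [P.ord_mul hNr.ne (hu0' σ), ord_uu hρ P hv]
    have hge : ∀ σ, 0 ≤ P.ord (e * uu b ρ σ) := by
      intro σ
      have h1 := (reg_plc (sub_Om hz2)).1 (hNr.reg (eT.symm σ) z hz2)
      rw [hue] at h1
      exact h1.resolve_left (mul_ne_zero hNr.ne (hu0' σ))
    obtain ⟨a, ha⟩ := hNr.nz z hz2
    rw [hNr.eq, ← odr_zero_iff (sub_Om hz2), odr_eq (sub_Om hz2) (mul_ne_zero hNr.ne (hu a))] at ha
    have ha' : P.ord (e * uu b ρ (eT a)) = 0 := by exact_mod_cast ha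
    -- a tuple of functions of minimal order
    have hzero : ∀ i, ∃ j, v i j = 0 := by
      intro i
      by_contra hcon
      push Not at hcon
      have h1 : Nontrivial (Fin (s i)) := Fin.nontrivial_iff_two_le.2 (by have := hs3 i; omega)
      obtain ⟨j, l, hjl⟩ := exists_pair_ne (Fin (s i))
      exact hjl (huniq i j l (hcon j) (hcon l))
    choose σ0 hσ0 using hzero
    have h1 := hge σ0
    rw [hmul] at h1
    simp only [hσ0] at h1
    rw [hmul] at ha'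
    have h2 : ∑ i, ((v i (eT a i) : ℤ) - v i (τ i)) = ∑ i, (v i (eT a i) : ℤ) -
        ∑ i, (v i (τ i) : ℤ) := Finset.sum_sub_distrib _ _
    have h3 : (0 : ℤ) ≤ ∑ i, (v i (eT a i) : ℤ) := Finset.sum_nonneg fun _ _ => by positivity
    have h4 : ∑ i, ((((0 : ℕ) : ℤ)) - v i (τ i)) = - ∑ i, (v i (τ i) : ℤ) := by
      simp
    rw [h4] at h1
    have h5 : P.ord e = ∑ i, (v i (τ i) : ℤ) := by linarith
    refine ⟨h5, fun σ => ?_⟩
    rw [hmul, h5, Finset.sum_sub_distrib]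
    ring
  -- the auxiliary function
  obtain ⟨N, hN⟩ : ∃ N, N = Fintype.card (∀ i, Fin (s i)) := ⟨_, rfl⟩
  obtain ⟨r0, hr0⟩ : ∃ r0, r0 = Fintype.card ι := ⟨_, rfl⟩
  set F : MK := FF' b ρ p Q e with hF
  have hF0 : F ≠ 0 := by
    rw [hF]
    unfold FF'
    exact mul_ne_zero (pow_ne_zero _ hNr.ne) (Finset.prod_ne_zero_iff.2 fun i _ =>
      mul_ne_zero (pow_ne_zero _ (MD_ne (hρ i))) (Finset.prod_ne_zero_iff.2 fun j _ =>
        pow_ne_zero _ (hx0 i j)))
  have hgeF : ∀ z (hz2 : z ∈ Ext 2) (v : ∀ i, Fin (s i) → ℕ),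
      (∀ i j, (plc (sub_Om hz2)).ord (xx b ρ i j) = (v i j : ℤ) - v i (τ i)) →
      (∀ i j l, v i j ≠ 0 → v i l ≠ 0 → j = l) →
      (∀ i, Ge (plc (sub_Om hz2)) (∑ j, (v i j : ℤ) - 2 * v i (τ i) -
        if ∃ j, v i j ≠ 0 then 1 else 0) (MD (ρ i))) →
      Ge (plc (sub_Om hz2)) (Q * ∑ i, ∑ j, (nn s i j * v i j : ℤ)) F := by
    intro z hz2 v hv huniq hMD
    refine ge_FF hρ hQ hbig _ hv hMD (fun hvv => ?_) (horde z hz2 v hv huniq).1
    exact hadm z (sub_Om hz2) v hvv huniq fun i => ⟨v i (τ i), fun j => hv i j⟩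
  have hregF : ∀ z ∈ Ext 2, Reg F z := by
    intro z hz2
    obtain ⟨v, h1, h2, h3⟩ := hloc z (sub_Om hz2)
    rw [reg_plc (sub_Om hz2)]
    exact (hgeF z hz2 v h1 h2 h3).mono (by positivity)
  have hexists : ∀ x : MK, x ≠ 0 → ∃ z ∈ Ext 2, Fn x z ≠ 0 := by
    intro x hx
    have h3 : (3 : ℂ) ∈ Ext 2 := by
      change (2 : ℝ) < ‖(3 : ℂ)‖
      norm_num
    have h1 := cod_ev (Fn_ne_codis hx) (sub_Om h3)
    have h2 : ∀ᶠ z in 𝓝[≠] (3 : ℂ), z ∈ Ext 2 :=
      nhdsWithin_le_nhds ((Ext_open 2).mem_nhds h3)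
    obtain ⟨z, h3, h4⟩ := (h2.and h1).exists
    exact ⟨z, h3, h4⟩
  -- the constants
  choose C hC1 hC using fun i => lin_ineq (by have := hs3 i; omega : 2 ≤ s i) (b i) (hinj i)
  have hfinal := fun a => abstract_ext (U := U) two_pos (fun _ => Q) (κ := 1) (Nn := Q * r0)
    one_pos (C1 := ∏ i, C i ^ Q) ?_ (fun a z hz => hNr.an a hz) ?_ (P := Fn F)
    (fun z hz => hregF z hz) (hexists F hF0) ?_ ?_ a
  · have h1 := fun a => minf_of_quot hNr hu hu0 hfinal a
    -- conclusion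
    obtain ⟨j, hj⟩ : ∃ j : Fin (s i), j ≠ τ i := by
      have h1 : Nontrivial (Fin (s i)) := Fin.nontrivial_iff_two_le.2 (by have := hs3 i; omega)
      exact exists_ne _
    have hbj : b i j ≠ 0 := fun h0 => hj (hinj i (h0.trans (hb0 i).symm))
    have h2 := h1 (eT.symm (Function.update τ i j))
    rw [hue, huup] at h2
    have h3 : ρ i = algebraMap ℂ MK (b i j)⁻¹ * (1 + algebraMap ℂ MK (-1) * xx b ρ i j) := by
      have h4 : algebraMap ℂ MK (b i j) ≠ 0 := (map_ne_zero _).2 hbj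
      unfold xx
      rw [map_neg, map_one, map_inv₀]
      field_simp
      ring
    rw [h3]
    have h5 : MInf (1 : MK) := by
      have := minf_const 1
      rwa [map_one] at this
    exact (minf_const _).mul (h5.add ((minf_const _).mul h2))
  · calc (1 : ℝ) = ∏ _i : ι, 1 := by rw [Finset.prod_const_one]
      _ ≤ ∏ i, C i ^ Q := Finset.prod_le_prod (fun _ _ => zero_le_one) fun i _ =>
          one_le_pow₀ (hC1 i)
  · intro a
    rw [hNr.eq]
    exact hexists _ (mul_ne_zero hNr.ne (hu a))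
  · -- the orders
    intro z hz2 a ha
    obtain ⟨v, h1, h2, h3⟩ := hloc z (sub_Om hz2)
    have h4 := (horde z hz2 v h1 h2).2
    have h5 : ∀ c, (a c : ℤ) = ∑ i, (v i (eT c i) : ℤ) := by
      intro c
      have h6 := odr_U hNr hz2 (ha c)
      rw [odr_eq (sub_Om hz2) (mul_ne_zero hNr.ne (hu c))] at h6
      have h7 : (plc (sub_Om hz2)).ord (e * u c) = (a c : ℤ) := by exact_mod_cast h6
      rw [← h7]
      exact h4 (eT c)
    have h6 : ((∑ c, Q * a c : ℕ) : ℤ) = Q * ∑ i, ∑ j, (nn s i j * v i j : ℤ) := by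
      push_cast
      rw [← Finset.mul_sum]
      congr 1
      simp only [h5]
      rw [Equiv.sum_comp eT fun σ => ∑ i, (v i (σ i) : ℤ),
        sum_tuples (fun i j => (v i j : ℤ))]
      simp only [nsmul_eq_mul]
    have h7 := hgeF z hz2 v h1 h2 h3
    rw [← ge_plc (sub_Om hz2), ← h6] at h7
    have h8 := (hregF z hz2).meromorphicOrderAt_eq
    unfold odr at h7
    rw [h8] at h7
    by_cases hn : analyticOrderAt (Fn F) z = ⊤
    · rw [hn]
      exact le_top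
    · obtain ⟨n, hn⟩ := ENat.ne_top_iff_exists.1 hn
      rw [← hn, ENat.map_natCast] at h7
      rw [← hn]
      have h9 : ((∑ c, Q * a c : ℕ) : ℤ) ≤ (n : ℤ) := WithTop.coe_le_coe.1 h7
      exact_mod_cast h9
  · -- the pointwise estimate
    intro z ε B hε hε1 hB hball hcalm
    have hzz : z ∈ closedBall z ε := mem_closedBall_self hε.le
    have hz2 : z ∈ Ext 2 := hball hzz
    have hz : z ∈ Om := sub_Om hz2
    have hUne : ∀ a, ∀ w ∈ closedBall z ε, U a w ≠ 0 := hcalm.1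
    -- the values
    have hxr : ∀ w ∈ closedBall z ε, ∀ i j, Reg (xx b ρ i j) w ∧
        Fn (xx b ρ i j) w = U (eT.symm (Function.update τ i j)) w / U (eT.symm τ) w := by
      intro w hw i j
      have h1 := hNr.val (i := eT.symm (Function.update τ i j)) (hball hw) (hUne (eT.symm τ) w hw)
      rw [hu0, div_one, hue, huup] at h1
      exact h1
    have hxne : ∀ i j, Fn (xx b ρ i j) z ≠ 0 := by
      intro i j
      rw [(hxr z hzz i j).2]
      exact div_ne_zero (hUne _ z hzz) (hUne _ z hzz)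
    have hρr : ∀ i, Reg (ρ i) z := by
      intro i
      obtain ⟨j, hj⟩ : ∃ j : Fin (s i), j ≠ τ i := by
        have h1 : Nontrivial (Fin (s i)) :=
          Fin.nontrivial_iff_two_le.2 (by have := hs3 i; omega)
        exact exists_ne _
      have hbj : b i j ≠ 0 := fun h0 => hj (hinj i (h0.trans (hb0 i).symm))
      have h3 : ρ i = algebraMap ℂ MK (b i j)⁻¹ * (1 - xx b ρ i j) := by
        have h4 : algebraMap ℂ MK (b i j) ≠ 0 := (map_ne_zero _).2 hbj
        unfold xx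
        rw [map_inv₀]
        field_simp
        ring
      have h5 : ρ i ∈ Oz ⟨z, hz⟩ := by
        rw [h3]
        exact (Oz ⟨z, hz⟩).mul_mem ((Oz ⟨z, hz⟩).algebraMap_mem _)
          ((Oz ⟨z, hz⟩).sub_mem (Oz ⟨z, hz⟩).one_mem (hxr z hzz i j).1)
      exact h5
    have hxv : ∀ i j, Fn (xx b ρ i j) z = 1 - b i j * Fn (ρ i) z := fun i j =>
      (Fn_xx hz (hρr i) j).2
    -- the derivatives
    have hder : ∀ i j l, ‖b i l - b i j‖ * ‖Fn (MD (ρ i)) z‖ ≤
        B / ε * (‖Fn (xx b ρ i j) z‖ * ‖Fn (xx b ρ i l) z‖) := by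
      intro i j l
      have hq : ∀ w ∈ closedBall z ε, Reg (xx b ρ i j / xx b ρ i l) w ∧
          Fn (xx b ρ i j / xx b ρ i l) w = U (eT.symm (Function.update τ i j)) w /
            U (eT.symm (Function.update τ i l)) w := by
        intro w hw
        have h1 := hNr.val (i := eT.symm (Function.update τ i j)) (hball hw)
          (hUne (eT.symm (Function.update τ i l)) w hw)
        rw [hue, huup, hue, huup] at h1
        exact h1
      refine der_calm (hρ i) hε (fun w hw => sub_Om (hball hw)) (hρr i) fun w hw => ?_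
      refine ⟨(hq w hw).1, ?_⟩
      rw [(hq w hw).2, (hq z hzz).2]
      exact hcalm.2 _ _ w hw
    -- the maxima
    have hM : ∀ i, ∃ M : ℝ, 1 ≤ M ∧ (∀ j, ‖1 - b i j * Fn (ρ i) z‖ ≤ M) ∧
        ∃ l, ‖1 - b i l * Fn (ρ i) z‖ = M := by
      intro i
      have hne : Nonempty (Fin (s i)) := ⟨τ i⟩
      obtain ⟨l, hl⟩ := Finite.exists_max fun j => ‖1 - b i j * Fn (ρ i) z‖
      refine ⟨‖1 - b i l * Fn (ρ i) z‖, ?_, hl, l, rfl⟩
      have h1 := hl (τ i)
      rw [hb0, zero_mul, sub_zero, norm_one] at h1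
      exact h1
    choose M hM1 hM2 hM3 using hM
    have hBε : 0 < B / ε := by positivity
    have hBε0 : 0 ≤ B / ε := hBε.le
    have hlin : ∀ i, ‖Fn (MD (ρ i)) z‖ * M i ^ (s i - 2) ≤
        C i * (B / ε) * ∏ j, ‖1 - b i j * Fn (ρ i) z‖ := by
      intro i
      refine hC i (Fn (ρ i) z) _ (B / ε) (M i) hBε0 (norm_nonneg _) (hM2 i) (hM3 i)
        fun j l _ => ?_
      have := hder i j l
      rwa [hxv, hxv] at this
    -- the unit factor
    have her : Reg e z := by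
      have h1 := hNr.reg (eT.symm τ) z hz2
      rwa [hu0, mul_one] at h1
    have heU : Fn e z = U (eT.symm τ) z := by
      rw [hNr.eq, hu0, mul_one]
    set E0 : ℝ := ‖Fn e z‖ with hE0
    have hE0' : 0 ≤ E0 := norm_nonneg _
    have hUv : ∀ σ, ‖U (eT.symm σ) z‖ = E0 * ∏ i, ‖1 - b i (σ i) * Fn (ρ i) z‖ := by
      intro σ
      have h1 : e * uu b ρ σ ∈ Oz ⟨z, hz⟩ := by
        have := hNr.reg (eT.symm σ) z hz2
        rwa [hue] at this
      have h2 : (⟨e * uu b ρ σ, h1⟩ : Oz ⟨z, hz⟩) = ⟨e, her⟩ *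
          ∏ i, (⟨xx b ρ i (σ i), (hxr z hzz i (σ i)).1⟩ : Oz ⟨z, hz⟩) := by
        apply Subtype.ext
        push_cast
        rfl
      have h3 := congrArg (evO ⟨z, hz⟩) h2
      rw [map_mul, map_prod, evO_apply, evO_apply] at h3
      simp only [evO_apply] at h3
      rw [hNr.eq, hue, h3, norm_mul, norm_prod]
      congr 1
      exact Finset.prod_congr rfl fun i _ => by rw [hxv]
    have hsup : sup U z ≤ E0 * ∏ i, M i := by
      obtain ⟨a, ha⟩ := sup_attained U z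
      rw [ha]
      have h1 := hUv (eT a)
      rw [Equiv.symm_apply_apply] at h1
      rw [h1]
      refine mul_le_mul_of_nonneg_left ?_ hE0'
      exact Finset.prod_le_prod (fun _ _ => norm_nonneg _) fun i _ => hM2 i _
    have hFv : ‖Fn F z‖ = E0 ^ (Q * N - 1) * ∏ i, (‖Fn (MD (ρ i)) z‖ ^ Q *
        ∏ j, ‖1 - b i j * Fn (ρ i) z‖ ^ (Q * (nn s i j - 1) + r0 * p i j)) := by
      have h2 : (⟨F, hregF z hz2⟩ : Oz ⟨z, hz⟩) = ⟨e, her⟩ ^ (Q * N - 1) *
          ∏ i, ((⟨MD (ρ i), (hρr i).MD hz⟩ : Oz ⟨z, hz⟩) ^ Q *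
            ∏ j, (⟨xx b ρ i j, (hxr z hzz i j).1⟩ : Oz ⟨z, hz⟩) ^
              (Q * (nn s i j - 1) + r0 * p i j)) := by
        apply Subtype.ext
        push_cast
        rw [hF, hN, hr0]
        rfl
      have h3 := congrArg (evO ⟨z, hz⟩) h2
      rw [map_mul, map_pow, map_prod, evO_apply, evO_apply] at h3
      simp only [map_mul, map_pow, map_prod, evO_apply] at h3
      rw [h3, norm_mul, norm_pow, norm_prod]
      congr 1
      refine Finset.prod_congr rfl fun i _ => ?_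
      rw [norm_mul, norm_pow, norm_prod]
      congr 1
      refine Finset.prod_congr rfl fun j _ => ?_
      rw [norm_pow, hxv]
    have hprodU : ∏ a, ‖U a z‖ ^ Q = E0 ^ (Q * N) *
        ∏ i, ∏ j, ‖1 - b i j * Fn (ρ i) z‖ ^ (Q * nn s i j) := by
      have h1 : ∀ a, ‖U a z‖ = E0 * ∏ i, ‖1 - b i (eT a i) * Fn (ρ i) z‖ := by
        intro a
        have := hUv (eT a)
        rwa [Equiv.symm_apply_apply] at this
      simp only [h1]
      rw [Equiv.prod_comp eT fun σ : ∀ i, Fin (s i) =>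
        (E0 * ∏ i, ‖1 - b i (σ i) * Fn (ρ i) z‖) ^ Q, Finset.prod_pow, Finset.prod_mul_distrib,
        Finset.prod_const, Finset.card_univ, ← hN,
        prod_tuples (fun i j => ‖1 - b i j * Fn (ρ i) z‖), mul_pow, ← pow_mul, mul_comm N Q]
      congr 1
      rw [← Finset.prod_pow]
      refine Finset.prod_congr rfl fun i _ => ?_
      rw [← Finset.prod_pow]
      refine Finset.prod_congr rfl fun j _ => ?_
      rw [← pow_mul, mul_comm (nn s i j) Q]
    have hN1 : 1 ≤ Q * N := by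
      have : 1 ≤ N := by rw [hN, hp']; omega
      exact Nat.mul_pos hQ this
    -- the estimate for one factor
    have hfac : ∀ i, (‖Fn (MD (ρ i)) z‖ ^ Q *
        ∏ j, ‖1 - b i j * Fn (ρ i) z‖ ^ (Q * (nn s i j - 1) + r0 * p i j)) * M i ≤
        (C i ^ Q * (B / ε) ^ Q) * ∏ j, ‖1 - b i j * Fn (ρ i) z‖ ^ (Q * nn s i j) := by
      intro i
      have hMi := hM1 i
      have e1 : ∏ j, ‖1 - b i j * Fn (ρ i) z‖ ^ (Q * (nn s i j - 1) + r0 * p i j) =
          (∏ j, ‖1 - b i j * Fn (ρ i) z‖ ^ (Q * (nn s i j - 1))) *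
            ∏ j, ‖1 - b i j * Fn (ρ i) z‖ ^ (r0 * p i j) := by
        rw [← Finset.prod_mul_distrib]
        exact Finset.prod_congr rfl fun j _ => by rw [pow_add]
      have e2 : ∏ j, ‖1 - b i j * Fn (ρ i) z‖ ^ (r0 * p i j) ≤ M i ^ (r0 * ∑ j, p i j) := by
        rw [Finset.mul_sum, ← Finset.prod_pow_eq_pow_sum]
        refine Finset.prod_le_prod (fun _ _ => by positivity) fun j _ => ?_
        exact pow_le_pow_left₀ (norm_nonneg _) (hM2 i j) _
      have e3 : M i ^ (r0 * ∑ j, p i j) * M i ≤ (M i ^ (s i - 2)) ^ Q := by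
        rw [← pow_succ, ← pow_mul]
        refine pow_le_pow_right₀ hMi ?_
        have h1 := hbig i
        rw [← hr0] at h1
        obtain ⟨q, hq⟩ : ∃ q, s i = q + 2 := ⟨s i - 2, by have := hs3 i; omega⟩
        have h2 : s i - 2 = q := by omega
        have h3 : Q * s i = q * Q + 2 * Q := by rw [hq]; ring
        rw [h2]
        rw [h3] at h1
        omega
      have e4 : ∏ j, ‖1 - b i j * Fn (ρ i) z‖ ^ (Q * nn s i j) =
          (∏ j, ‖1 - b i j * Fn (ρ i) z‖ ^ (Q * (nn s i j - 1))) *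
            (∏ j, ‖1 - b i j * Fn (ρ i) z‖) ^ Q := by
        rw [← Finset.prod_pow, ← Finset.prod_mul_distrib]
        refine Finset.prod_congr rfl fun j _ => ?_
        rw [← pow_add]
        congr 1
        obtain ⟨q, hq⟩ : ∃ q, nn s i j = q + 1 := ⟨nn s i j - 1, by
          have := one_le_nn τ i j
          omega⟩
        rw [hq, Nat.add_sub_cancel]
        ring
      set A1 : ℝ := ∏ j, ‖1 - b i j * Fn (ρ i) z‖ ^ (Q * (nn s i j - 1)) with hA1
      have hA10 : 0 ≤ A1 := Finset.prod_nonneg fun _ _ => by positivity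
      set D : ℝ := ‖Fn (MD (ρ i)) z‖ with hD
      have hD0 : 0 ≤ D := norm_nonneg _
      have hMi0 : 0 ≤ M i := by linarith
      rw [e1, e4]
      calc (D ^ Q * (A1 * ∏ j, ‖1 - b i j * Fn (ρ i) z‖ ^ (r0 * p i j))) * M i
          ≤ (D ^ Q * (A1 * M i ^ (r0 * ∑ j, p i j))) * M i := by gcongr
        _ = A1 * (D ^ Q * (M i ^ (r0 * ∑ j, p i j) * M i)) := by ring
        _ ≤ A1 * (D ^ Q * (M i ^ (s i - 2)) ^ Q) := by gcongr
        _ = A1 * (D * M i ^ (s i - 2)) ^ Q := by rw [mul_pow]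
        _ ≤ A1 * (C i * (B / ε) * ∏ j, ‖1 - b i j * Fn (ρ i) z‖) ^ Q := by
            have := hlin i
            gcongr
        _ = _ := by rw [mul_pow, mul_pow]; ring
    rw [pow_one, hFv, hprodU]
    obtain ⟨G, hG⟩ : ∃ G : ι → ℝ, ∀ i, (‖Fn (MD (ρ i)) z‖ ^ Q *
        ∏ j, ‖1 - b i j * Fn (ρ i) z‖ ^ (Q * (nn s i j - 1) + r0 * p i j)) = G i :=
      ⟨_, fun _ => rfl⟩
    obtain ⟨H, hH⟩ : ∃ H : ι → ℝ, ∀ i,
        (∏ j, ‖1 - b i j * Fn (ρ i) z‖ ^ (Q * nn s i j)) = H i := ⟨_, fun _ => rfl⟩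
    have hG0 : ∀ i, 0 ≤ G i := fun i => by
      rw [← hG]
      exact mul_nonneg (by positivity) (Finset.prod_nonneg fun j _ => by positivity)
    simp only [hG, hH] at hfac ⊢
    have hQN : E0 ^ (Q * N) = E0 ^ (Q * N - 1) * E0 := by
      rw [← pow_succ]
      congr 1
      omega
    calc (E0 ^ (Q * N - 1) * ∏ i, G i) * sup U z
        ≤ (E0 ^ (Q * N - 1) * ∏ i, G i) * (E0 * ∏ i, M i) := by
          refine mul_le_mul_of_nonneg_left hsup (mul_nonneg (by positivity) ?_)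
          exact Finset.prod_nonneg fun i _ => hG0 i
      _ = E0 ^ (Q * N) * ∏ i, (G i * M i) := by
          rw [Finset.prod_mul_distrib, hQN]
          ring
      _ ≤ E0 ^ (Q * N) * ∏ i, ((C i ^ Q * (B / ε) ^ Q) * H i) := by
          refine mul_le_mul_of_nonneg_left ?_ (by positivity)
          refine Finset.prod_le_prod (fun i _ => ?_) fun i _ => hfac i
          exact mul_nonneg (hG0 i) (zero_le_one.trans (hM1 i))
      _ = _ := by
          rw [Finset.prod_mul_distrib, Finset.prod_mul_distrib, Finset.prod_const,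
            Finset.card_univ, ← hr0, ← pow_mul]
          ring

end Pool.Agent.Helper1K9.PK
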