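import Pool.Agent.Helper1K9.PK.Top

/-!
Explicit forms of the theorem on holomorphic curves: families of meromorphic functions on the
punctured disc and on the complex plane which satisfy the equations of a cover.
-/

set_option autoImplicit false

open FF Pool.Agent.W603.LV Pool.Agent.W602.GT

namespace Pool.Agent.Helper1K9.PK

open Filter Metric Set Topology Pool.Agent.W603.BP Pool.Agent.Y221.AP

variable {n r : ℕ} (X : Cover n r)

/-- the point of the cover with values in the field of meromorphic functions -/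
theorem pt_of_cod {t : Fin n → ℂ → ℂ} {y : Fin r → ℂ → ℂ} (ht : ∀ i, MeromorphicOn (t i) Om)
    (hy : ∀ k, MeromorphicOn (y k) Om)
    (heq : ∀ᶠ w in cod, ∀ k, y k w ^ X.m k = ∏ i, ∏ j, (t i w - X.c i j) ^ X.e k i j)
    (hoff : ∀ i j, ¬ ∀ᶠ w in cod, t i w = X.c i j) :
    X.Pt (fun i => cl (t i) (ht i)) (fun k => cl (y k) (hy k)) := by
  classical
  constructor
  · intro k
    -- pass to the ring of functions
    let T : Fin n → MerS := fun i => ⟨t i, ht i⟩
    let Y : MerS := ⟨y k, hy k⟩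
    have h1 : cl (y k) (hy k) = Ideal.Quotient.mk MJ Y := rfl
    have h2 : ∀ i, cl (t i) (ht i) = Ideal.Quotient.mk MJ (T i) := fun i => rfl
    have h3 : ∀ c : ℂ, algebraMap ℂ MK c = Ideal.Quotient.mk MJ (algebraMap ℂ MerS c) :=
      fun c => rfl
    simp only [h1, h2, h3, ← map_sub, ← map_pow, ← map_prod]
    rw [Ideal.Quotient.eq, mem_MJ]
    filter_upwards [heq] with w hw
    have h4 : ∀ f : MerS, f.1 w = evS w f := fun f => rfl
    rw [h4, map_sub, map_pow, map_prod, sub_eq_zero]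
    have h5 : evS w Y = y k w := rfl
    have h6 : ∀ i, evS w (T i) = t i w := fun i => rfl
    rw [h5, hw k]
    refine Finset.prod_congr rfl fun i _ => ?_
    rw [map_prod]
    refine Finset.prod_congr rfl fun j _ => ?_
    rw [map_pow, map_sub, h6, AlgHom.commutes]
    rfl
  · intro i j h0
    apply hoff i j
    rw [← cl_const, cl_eq] at h0
    exact h0

/-- the interior: no zeros -/
theorem reg_inv_cl {f : ℂ → ℂ} (hf : MeromorphicOn f Om) {z : ℂ} (hz : z ∈ Om) (c : ℂ)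
    (h : meromorphicOrderAt (fun w => f w - c) z ≤ 0) :
    (plc hz).Reg (cl f hf - algebraMap ℂ MK c)⁻¹ := by
  have hg : MeromorphicOn (fun w => f w - c) Om := hf.sub (mconst c)
  have h1 : cl f hf - algebraMap ℂ MK c = cl (fun w => f w - c) hg := by
    have h2 := cl_add hg (mconst c)
    rw [cl_const] at h2
    rw [sub_eq_iff_eq_add, h2]
    refine cl_eq.2 (Eventually.of_forall fun w => ?_)
    simp
  have h3 : odr ((cl f hf - algebraMap ℂ MK c)⁻¹) z = -meromorphicOrderAt (fun w => f w - c) z := by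
    rw [h1, cl_inv, odr_cl hg.inv hz, meromorphicOrderAt_inv]
  have h4 : (((0 : ℤ)) : WithTop ℤ) ≤ odr ((cl f hf - algebraMap ℂ MK c)⁻¹) z := by
    rw [h3]
    have hne : meromorphicOrderAt (fun w => f w - c) z ≠ ⊤ := by
      intro h0
      rw [h0] at h
      exact absurd h (by decide)
    obtain ⟨a, ha⟩ := WithTop.ne_top_iff_exists.1 hne
    rw [← ha] at h ⊢
    have h5 : a ≤ 0 := by exact_mod_cast h
    have h6 : (0 : ℤ) ≤ -a := by omega
    exact_mod_cast h6
  exact (ge_plc hz).1 h4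

/-- the function values as well -/
theorem minf_of_pt' (hX : X.Big) {t : Fin n → MK} {y : Fin r → MK} (hpt : X.Pt t y)
    (hint : ∀ (z : ℂ) (hz : z ∈ Om) i j, j ∈ X.bd i →
      (plc hz).Reg (t i - algebraMap ℂ MK (X.c i j))⁻¹) (k : Fin r) :
    MInf (y k) := by
  have ht : ∀ i, t i ∈ MI := fun i => minf_of_pt X hX hpt hint i
  have h1 : y k ^ X.m k ∈ MI := by
    rw [hpt.eq k]
    exact prod_mem fun i _ => prod_mem fun j _ => pow_mem (sub_mem (ht i)
      (MI.algebraMap_mem _)) _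
  refine minf_of_alg ?_
  have h2 : IsAlgebraic MI (y k ^ X.m k) :=
    isAlgebraic_algebraMap (R := MI) (A := MK) ⟨y k ^ X.m k, h1⟩
  exact h2.of_pow (X.m_pos k)

theorem tendsto_inv_ne {z : ℂ} (hz : z ≠ 0) : Tendsto (fun w : ℂ => w⁻¹) (𝓝[≠] z) (𝓝[≠] z⁻¹) :=
  (hasDerivAt_inv hz).tendsto_nhdsNE (neg_ne_zero.2 (inv_ne_zero (pow_ne_zero 2 hz)))

theorem mero_inv {f : ℂ → ℂ} (hf : MeromorphicOn f (ball 0 1 \ {0})) :
    MeromorphicOn (fun z => f z⁻¹) Om := by
  intro z hz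
  have hz0 : z ≠ 0 := by
    intro h0
    have h1 : (1 : ℝ) < ‖z‖ := hz
    rw [h0, norm_zero] at h1
    linarith
  have h1 : z⁻¹ ∈ ball (0 : ℂ) 1 \ {0} := mem_disc.2 (inv_mem_PB one_pos (by rwa [inv_one]))
  exact (hf _ h1).comp_analyticAt (analyticAt_inv hz0)

/-- **Meromorphic functions on the punctured disc.** -/
theorem discs (hX : X.Big) {t : Fin n → ℂ → ℂ} {y : Fin r → ℂ → ℂ}
    (ht : ∀ i, MeromorphicOn (t i) (ball 0 1 \ {0}))
    (hy : ∀ k, MeromorphicOn (y k) (ball 0 1 \ {0}))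
    (heq : ∀ z ∈ ball (0 : ℂ) 1 \ {0}, ∀ᶠ w in 𝓝[≠] z, ∀ k,
      y k w ^ X.m k = ∏ i, ∏ j, (t i w - X.c i j) ^ X.e k i j)
    (hoff : ∀ i j, ∃ z ∈ ball (0 : ℂ) 1 \ {0}, ∃ᶠ w in 𝓝[≠] z, t i w ≠ X.c i j)
    (hbd : ∀ i, ∀ j ∈ X.bd i, ∀ z ∈ ball (0 : ℂ) 1 \ {0},
      meromorphicOrderAt (fun w => t i w - X.c i j) z ≤ 0) :
    ∃ (t' : Fin n → ℂ → ℂ) (y' : Fin r → ℂ → ℂ), (∀ i, MeromorphicAt (t' i) 0) ∧
      (∀ k, MeromorphicAt (y' k) 0) ∧ ∀ z ∈ ball (0 : ℂ) 1 \ {0}, ∀ᶠ w in 𝓝[≠] z,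
        (∀ i, t i w = t' i w) ∧ ∀ k, y k w = y' k w := by
  have hOm0 : ∀ {z : ℂ}, z ∈ Om → z ≠ 0 := by
    intro z hz h0
    have h1 : (1 : ℝ) < ‖z‖ := hz
    rw [h0, norm_zero] at h1
    linarith
  have hinv : ∀ {z : ℂ}, z ∈ Om → z⁻¹ ∈ ball (0 : ℂ) 1 \ {0} := fun hz =>
    mem_disc.2 (inv_mem_PB one_pos (by rwa [inv_one]))
  have hinv' : ∀ {w : ℂ}, w ∈ ball (0 : ℂ) 1 \ {0} → w⁻¹ ∈ Om := by
    intro w hw
    have := inv_mem_Ext (mem_disc.1 hw)
    rwa [inv_one] at this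
  have hw0 : ∀ {w : ℂ}, w ∈ ball (0 : ℂ) 1 \ {0} → w ≠ 0 := fun hw => hw.2
  have hpt := pt_of_cod X (t := fun i z => t i z⁻¹) (y := fun k z => y k z⁻¹)
    (fun i => mero_inv (ht i)) (fun k => mero_inv (hy k))
    (cod_of_ev fun x hx => (tendsto_inv_ne (hOm0 hx)).eventually (heq _ (hinv hx)))
    (fun i j h => by
      obtain ⟨z, hz, hfr⟩ := hoff i j
      refine hfr ?_
      have h1 := (tendsto_inv_ne (hw0 hz)).eventually (cod_ev h (hinv' hz))
      filter_upwards [h1] with w hw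
      rw [inv_inv] at hw
      exact not_not.2 hw)
  have hint : ∀ (z : ℂ) (hz : z ∈ Om) i j, j ∈ X.bd i →
      (plc hz).Reg (cl (fun z => t i z⁻¹) (mero_inv (ht i)) - algebraMap ℂ MK (X.c i j))⁻¹ := by
    intro z hz i j hj
    refine reg_inv_cl _ hz _ ?_
    have h1 := meromorphicOrderAt_comp_of_deriv_ne_zero (f := fun w => t i w - X.c i j)
      (analyticAt_inv (𝕜 := ℂ) (hOm0 hz)) (by
        change deriv (fun w : ℂ => w⁻¹) z ≠ 0
        rw [(hasDerivAt_inv (hOm0 hz)).deriv]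
        exact neg_ne_zero.2 (inv_ne_zero (pow_ne_zero 2 (hOm0 hz))))
    have h2 := hbd i j hj _ (hinv hz)
    exact (le_of_eq h1).trans h2
  have hfn : ∀ {f : ℂ → ℂ} (hf : MeromorphicOn (fun z => f z⁻¹) Om),
      ∀ z ∈ ball (0 : ℂ) 1 \ {0}, ∀ᶠ w in 𝓝[≠] z, f w = Fn (cl (fun z => f z⁻¹) hf) w⁻¹ := by
    intro f hf z hz
    have h1 := (tendsto_inv_ne (hw0 hz)).eventually (cod_ev (Fn_cl_codis hf) (hinv' hz))
    filter_upwards [h1] with w hw
    rw [hw, inv_inv]
  refine ⟨fun i w => Fn (cl (fun z => t i z⁻¹) (mero_inv (ht i))) w⁻¹,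
    fun k w => Fn (cl (fun z => y k z⁻¹) (mero_inv (hy k))) w⁻¹, fun i => minf_of_pt X hX hpt hint i,
    fun k => minf_of_pt' X hX hpt hint k, fun z hz => ?_⟩
  exact (eventually_all.2 fun i => hfn (mero_inv (ht i)) z hz).and
    (eventually_all.2 fun k => hfn (mero_inv (hy k)) z hz)

theorem tendsto_exp_ne (z : ℂ) : Tendsto Complex.exp (𝓝[≠] z) (𝓝[≠] Complex.exp z) :=
  (Complex.hasDerivAt_exp z).tendsto_nhdsNE (Complex.exp_ne_zero z)

/-- the identity theorem on the plane -/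
theorem mero_id_plane {f : ℂ → ℂ} (hf : ∀ z, MeromorphicAt f z) {a x : ℂ}
    (h : ∃ᶠ w in 𝓝[≠] x, f w = a) (z : ℂ) : ∀ᶠ w in 𝓝[≠] z, f w = a := by
  have hg : MeromorphicOn (fun w => f w - a) univ := fun z _ =>
    (hf z).sub (MeromorphicAt.const a z)
  have h1 : ∃ᶠ w in 𝓝[≠] x, f w - a = 0 := h.mono fun w hw => sub_eq_zero.2 hw
  have h2 := (hg x (mem_univ x)).frequently_zero_iff_eventuallyEq_zero.1 h1
  have h3 : meromorphicOrderAt (fun w => f w - a) x = ⊤ := meromorphicOrderAt_eq_top_iff.2 h2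
  have h5 : meromorphicOrderAt (fun w => f w - a) z = ⊤ := by
    by_contra h4
    exact (hg.meromorphicOrderAt_ne_top_of_isPreconnected isPreconnected_univ (mem_univ z)
      (mem_univ x) h4) h3
  filter_upwards [meromorphicOrderAt_eq_top_iff.1 h5] with w hw
  exact sub_eq_zero.1 hw

/-- **Meromorphic functions on the plane.** -/
theorem plane (hX : X.Big) {t : Fin n → ℂ → ℂ} {y : Fin r → ℂ → ℂ}
    (ht : ∀ i z, MeromorphicAt (t i) z) (hy : ∀ k z, MeromorphicAt (y k) z)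
    (heq : ∀ z, ∀ᶠ w in 𝓝[≠] z, ∀ k,
      y k w ^ X.m k = ∏ i, ∏ j, (t i w - X.c i j) ^ X.e k i j)
    (hoff : ∀ i j, ∃ z, ∃ᶠ w in 𝓝[≠] z, t i w ≠ X.c i j)
    (hbd : ∀ i, ∀ j ∈ X.bd i, ∀ z, meromorphicOrderAt (fun w => t i w - X.c i j) z ≤ 0)
    (i : Fin n) :
    ∃ a : ℂ, ∀ z, ∀ᶠ w in 𝓝[≠] z, t i w = a := by
  have hte : ∀ i, MeromorphicOn (fun z => t i (Complex.exp z)) Om := fun i z _ =>
    (ht i _).comp_analyticAt (analyticAt_cexp)
  have hye : ∀ k, MeromorphicOn (fun z => y k (Complex.exp z)) Om := fun k z _ =>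
    (hy k _).comp_analyticAt (analyticAt_cexp)
  have hpt := pt_of_cod X hte hye
    (cod_of_ev fun x _ => (tendsto_exp_ne x).eventually (heq _))
    (fun i j h => by
      obtain ⟨z, hfr⟩ := hoff i j
      refine hfr ?_
      have h1 : ∃ᶠ w in 𝓝[≠] (2 : ℂ), t i (Complex.exp w) = X.c i j :=
        (cod_ev h two_mem).frequently
      have h2 : ∃ᶠ w in 𝓝[≠] (Complex.exp 2), t i w = X.c i j := (tendsto_exp_ne 2).frequently h1
      filter_upwards [mero_id_plane (ht i) h2 z] with w hw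
      exact not_not.2 hw)
  have hint : ∀ (z : ℂ) (hz : z ∈ Om) i j, j ∈ X.bd i →
      (plc hz).Reg (cl (fun z => t i (Complex.exp z)) (hte i) - algebraMap ℂ MK (X.c i j))⁻¹ := by
    intro z hz i j hj
    refine reg_inv_cl _ hz _ ?_
    have h1 := meromorphicOrderAt_comp_of_deriv_ne_zero (f := fun w => t i w - X.c i j)
      (analyticAt_cexp (z := z)) (by
        rw [Complex.deriv_exp]
        exact Complex.exp_ne_zero z)
    exact (le_of_eq h1).trans (hbd i j hj _)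
  have hinf := minf_of_pt X hX hpt hint i
  obtain ⟨T, hT⟩ : ∃ T, T = cl (fun z => t i (Complex.exp z)) (hte i) := ⟨_, rfl⟩
  rw [← hT] at hinf
  -- a point where the function is holomorphic
  have hana : ∀ᶠ w in 𝓝[≠] (2 : ℂ), AnalyticAt ℂ (t i) (Complex.exp w) :=
    (tendsto_exp_ne 2).eventually (ht i _).eventually_analyticAt
  have hre : ∀ᶠ w in 𝓝[≠] (2 : ℂ), 1 < w.re := by
    refine nhdsWithin_le_nhds ?_
    exact (Complex.continuous_re.tendsto (2 : ℂ)).eventually_const_lt (by norm_num)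
  obtain ⟨z0, hz0, hz1⟩ := (hana.and hre).exists
  obtain ⟨a, ha⟩ : ∃ a, a = t i (Complex.exp z0) := ⟨_, rfl⟩
  -- the translates
  have hzk : ∀ k : ℕ, z0 + 2 * Real.pi * Complex.I * k ∈ Om := by
    intro k
    have h1 : (z0 + 2 * Real.pi * Complex.I * k).re = z0.re := by
      simp
    change (1 : ℝ) < ‖z0 + 2 * Real.pi * Complex.I * k‖
    calc (1 : ℝ) < z0.re := hz1
      _ = (z0 + 2 * Real.pi * Complex.I * k).re := h1.symm
      _ ≤ _ := Complex.re_le_norm _
  have hexpk : ∀ k : ℕ, Complex.exp (z0 + 2 * Real.pi * Complex.I * k) = Complex.exp z0 := by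
    intro k
    have := Complex.exp_periodic.nat_mul k
    have h2 := this z0
    rw [← h2]
    congr 1
    ring
  have hvalk : ∀ k : ℕ, Fn T (z0 + 2 * Real.pi * Complex.I * k) = a := by
    intro k
    have h1 : AnalyticAt ℂ (fun z => t i (Complex.exp z)) (z0 + 2 * Real.pi * Complex.I * k) := by
      have h2 : AnalyticAt ℂ (t i) (Complex.exp (z0 + 2 * Real.pi * Complex.I * k)) := by
        rw [hexpk]
        exact hz0
      exact h2.comp analyticAt_cexp
    rw [hT, (Fn_cl (hte i) (hzk k) h1).self_of_nhds]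
    change t i (Complex.exp (z0 + 2 * Real.pi * Complex.I * k)) = a
    rw [hexpk, ha]
  -- the value `a` is attained near infinity
  have hfreq : ∃ᶠ w in 𝓝[≠] (0 : ℂ), Fn T w⁻¹ - a = 0 := by
    have hlim : Tendsto (fun k : ℕ => (z0 + 2 * Real.pi * Complex.I * k)⁻¹) atTop
        (𝓝[≠] (0 : ℂ)) := by
      rw [tendsto_nhdsWithin_iff]
      constructor
      · refine tendsto_inv₀_cobounded.comp ?_
        rw [← tendsto_norm_atTop_iff_cobounded]
        have h1 : ∀ k : ℕ, (2 * Real.pi) * k - ‖z0‖ ≤ ‖z0 + 2 * Real.pi * Complex.I * k‖ := by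
          intro k
          have h2 : ‖(2 * Real.pi * Complex.I * k : ℂ)‖ = 2 * Real.pi * k := by
            rw [norm_mul, norm_mul, norm_mul, Complex.norm_I, Complex.norm_real, Real.norm_eq_abs,
              abs_of_pos Real.pi_pos, Complex.norm_natCast, mul_one]
            simp
          have h3 := norm_sub_le (z0 + 2 * Real.pi * Complex.I * k) z0
          rw [add_sub_cancel_left, h2] at h3
          linarith
        refine tendsto_atTop_mono h1 ?_
        refine tendsto_atTop_add_const_right _ _ ?_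
        exact Tendsto.const_mul_atTop (by positivity) tendsto_natCast_atTop_atTop
      · refine Eventually.of_forall fun k => ?_
        refine inv_ne_zero ?_
        intro h0
        have h1 := hzk k
        rw [h0] at h1
        have h2 : (1 : ℝ) < ‖(0 : ℂ)‖ := h1
        rw [norm_zero] at h2
        linarith
    refine hlim.frequently (Eventually.frequently (Eventually.of_forall fun k => ?_))
    rw [inv_inv, hvalk, sub_self]
  have hmer : MeromorphicAt (fun w => Fn T w⁻¹ - a) 0 := hinf.sub (MeromorphicAt.const a 0)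
  have hev := hmer.frequently_zero_iff_eventuallyEq_zero.1 hfreq
  obtain ⟨z1, hz1O, hz1e⟩ := of_inv (p := fun v => Fn T v = a) (by
    filter_upwards [hev] with w hw
    exact sub_eq_zero.1 hw)
  refine ⟨a, fun z => ?_⟩
  have h1 : ∀ᶠ w in 𝓝[≠] z1, t i (Complex.exp w) = a := by
    have h2 := cod_ev (Fn_cl_codis (hte i)) hz1O
    rw [← hT] at h2
    filter_upwards [h2, nhdsWithin_le_nhds hz1e] with w e1 e2
    rw [← e1, e2]
  exact mero_id_plane (ht i) ((tendsto_exp_ne z1).frequently h1.frequently) z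

end Pool.Agent.Helper1K9.PK
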