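import Pool.Agent.Helper1K9.PK.Loc
import Pool.Agent.W602.GT.Dich

/-!
Varieties with finite maps to products of lines which meet the fibres over the branch points with
high multiplicities (in a weighted sense) are of general type.
-/

set_option autoImplicit false

open FF Pool.Agent.W603.LV Pool.Agent.W602.GT

namespace Pool.Agent.Helper1K9.PK

variable {k K : Type} [Field k] [Field K] [Algebra k K]

/-- transcendence bases through a given member of a generating family -/
theorem exists_basis {ι : Type} {ρ : ι → K} (i : ι) (hρ : Transcendental k (ρ i))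
    (halg : Algebra.IsAlgebraic (IntermediateField.adjoin k (Set.range ρ)) K) {w : ℕ}
    (hw : Algebra.trdeg k K = w) : ∃ β : Fin w → ι, (∃ a, β a = i) ∧
      IsTranscendenceBasis k (fun a => ρ (β a)) := by
  classical
  have halg' := Pool.Agent.W602.GT.alg_adjoin halg
  have hs : AlgebraicIndepOn k id ({ρ i} : Set K) := by
    have h1 : AlgebraicIndependent k (fun x : ({ρ i} : Set K) => (x : K)) := by
      rw [algebraicIndependent_singleton_iff (R := k) (A := K) (x := fun x : ({ρ i} : Set K) => (x : K)) ⟨ρ i, rfl⟩]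
      exact hρ
    exact h1
  obtain ⟨u, hsu, hut, hu⟩ := exists_isTranscendenceBasis_between (R := k) (A := K) {ρ i}
    (Set.range ρ) (by rintro _ rfl; exact ⟨i, rfl⟩) hs
  have hcard := hu.cardinalMk_eq_trdeg
  rw [hw] at hcard
  have hfin : Finite u := by
    rw [← Cardinal.mk_lt_aleph0_iff, hcard]
    exact Cardinal.natCast_lt_aleph0
  have hf := Fintype.ofFinite u
  have hc : Fintype.card u = w := by
    rw [Cardinal.mk_fintype] at hcard
    exact_mod_cast hcard
  let e : Fin w ≃ u := (Fintype.equivFinOfCardEq hc).symm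
  let f : u → ι := fun x => if h : (x : K) = ρ i then i else (hut x.2).choose
  have hfx : ∀ x : u, ρ (f x) = x := by
    intro x
    by_cases h : (x : K) = ρ i
    · simp only [f, dif_pos h]
      exact h.symm
    · simp only [f, dif_neg h]
      exact (hut x.2).choose_spec
  refine ⟨f ∘ e, ⟨e.symm ⟨ρ i, hsu rfl⟩, ?_⟩, ?_⟩
  · simp [f]
  · have h1 : (fun a => ρ ((f ∘ e) a)) = (fun x : u => (x : K)) ∘ e := by
      funext a
      exact hfx _
    rw [h1]
    exact (isTranscendenceBasis_equiv e).2 hu

/-- the determinant of a transcendence basis with respect to a dual basis of derivations does not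
vanish -/
theorem det_ne [CharZero k] {w : ℕ} {t t' : Fin w → K} (ht : IsTranscendenceBasis k t)
    {D : Fin w → Derivation k K K} (hD : ∀ i j, D i (t' j) = if i = j then 1 else 0) :
    (Matrix.of fun i j => D i (t j)).det ≠ 0 := by
  classical
  intro h0
  obtain ⟨v, hv, hv0⟩ := Matrix.exists_vecMul_eq_zero_iff.2 h0
  apply hv
  have h1 : (∑ i, v i • D i) = 0 := by
    apply der_ext t ht
    intro j
    have h2 := congrFun hv0 j
    have h3 : ∀ (s : Finset (Fin w)) (x : K), (∑ i ∈ s, v i • D i) x = ∑ i ∈ s, v i * D i x := by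
      intro s x
      induction s using Finset.induction_on with
      | empty => simp
      | insert i s hi ih =>
        rw [Finset.sum_insert hi, Finset.sum_insert hi, Derivation.add_apply, ih]
        rfl
    rw [h3]
    exact h2
  funext j
  have h2 := congrArg (fun E : Derivation k K K => E (t' j)) h1
  have h3 : ∀ (s : Finset (Fin w)) (x : K), (∑ i ∈ s, v i • D i) x = ∑ i ∈ s, v i * D i x := by
    intro s x
    induction s using Finset.induction_on with
    | empty => simp
    | insert i s hi ih =>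
      rw [Finset.sum_insert hi, Finset.sum_insert hi, Derivation.add_apply, ih]
      rfl
  simp only [h3, hD, mul_ite, mul_one, mul_zero, Finset.sum_ite_eq', Finset.mem_univ, if_true] at h2
  exact h2

variable {ι : Type} [Fintype ι] {s : ι → ℕ}

theorem ord_prod_univ (P : Place k K) {α : Type} (u : Finset α) (f : α → K)
    (hf : ∀ a ∈ u, f a ≠ 0) : P.ord (∏ a ∈ u, f a) = ∑ a ∈ u, P.ord (f a) := by
  classical
  induction u using Finset.induction_on with
  | empty => simp [P.ord_one]
  | insert a u ha ih =>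
    rw [Finset.prod_insert ha, Finset.sum_insert ha,
      P.ord_mul (hf a (Finset.mem_insert_self _ _)) (Finset.prod_ne_zero_iff.2 fun b hb =>
        hf b (Finset.mem_insert_of_mem hb)), ih fun b hb => hf b (Finset.mem_insert_of_mem hb)]

/-- **Varieties over products of lines with high multiplicities along the fibres over the branch
points are of log general type.** -/
theorem lgt_core [CharZero k] (b : ∀ i, Fin (s i) → k) (τ : ∀ i, Fin (s i))
    (hb0 : ∀ i, b i (τ i) = 0) (hinj : ∀ i, Function.Injective (b i)) (ρ : ι → K)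
    (hρ : ∀ i, Transcendental k (ρ i))
    (halg : Algebra.IsAlgebraic (IntermediateField.adjoin k (Set.range ρ)) K) {w : ℕ}
    (hw : Algebra.trdeg k K = w) (hw1 : 1 ≤ w) (p : ∀ i, Fin (s i) → ℕ) {Q : ℕ} (hQ : 0 < Q)
    (hbig : ∀ i, Fintype.card ι * ∑ j, p i j + 2 * Q < Q * s i) {Bd : Place k K → Prop}
    (hadm : ∀ (P : Place k K), ¬ Bd P → ∀ (v : ∀ i, Fin (s i) → ℕ), (∃ i j, v i j ≠ 0) →
      (∀ i j l, v i j ≠ 0 → v i l ≠ 0 → j = l) →
      (∀ i, ∃ μ : ℤ, ∀ j, P.ord (1 - algebraMap k K (b i j) * ρ i) = (v i j : ℤ) - μ) →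
      Q ≤ ∑ i, ∑ j, p i j * v i j) : LogGeneralType k K w Bd := by
  classical
  -- there is at least one function
  obtain ⟨i0⟩ : Nonempty ι := by
    by_contra hemp
    rw [not_nonempty_iff] at hemp
    have h1 : Set.range ρ = ∅ := Set.range_eq_empty ρ
    rw [h1, IntermediateField.adjoin_empty] at halg
    have h2 : Algebra.IsAlgebraic k K := by
      have h3 : Algebra.IsAlgebraic k (⊥ : IntermediateField k K) := by
        constructor
        intro x
        obtain ⟨c, hc⟩ := IntermediateField.mem_bot.1 x.2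
        have : x = algebraMap k _ c := Subtype.ext hc.symm
        rw [this]
        exact isAlgebraic_algebraMap c
      exact Algebra.IsAlgebraic.trans k (⊥ : IntermediateField k K) K
    have h3 : Algebra.trdeg k K = 0 := trdeg_eq_zero_iff.2 h2
    rw [hw] at h3
    have : w = 0 := by exact_mod_cast h3
    omega
  choose β hβ hbas using fun i => exists_basis i (hρ i) halg hw
  have hr0 : 0 < Fintype.card ι := Fintype.card_pos_iff.2 ⟨i0⟩
  set r0 := Fintype.card ι with hr0d
  -- the number of occurrences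
  let cc : ι → ℕ := fun b => ∑ i, ∑ a, if β i a = b then 1 else 0
  have hcc1 : ∀ b, 1 ≤ cc b := by
    intro b
    obtain ⟨a, ha⟩ := hβ b
    have h1 : (1 : ℕ) ≤ ∑ a, if β b a = b then 1 else 0 := by
      have := Finset.single_le_sum (f := fun a => if β b a = b then 1 else 0)
        (fun _ _ => Nat.zero_le _) (Finset.mem_univ a)
      simpa [ha] using this
    exact h1.trans (Finset.single_le_sum (f := fun i => ∑ a, if β i a = b then 1 else 0)
      (fun _ _ => Nat.zero_le _) (Finset.mem_univ b))
  let x : ∀ i, Fin (s i) → K := fun i j => 1 - algebraMap k K (b i j) * ρ i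
  have hx0 : ∀ i j, x i j ≠ 0 := fun i j => ne_of_transc (hρ i) _
  let ex : ∀ i, Fin (s i) → ℤ := fun i j => (r0 * p i j : ℤ) - Q * cc i
  let g : K := ∏ i, ∏ j, x i j ^ ex i j
  have hg0 : g ≠ 0 := Finset.prod_ne_zero_iff.2 fun i _ => Finset.prod_ne_zero_iff.2 fun j _ =>
    zpow_ne_zero _ (hx0 i j)
  let dt : ι → (Fin w → Derivation k K K) → K := fun i D => (Matrix.of fun a c => D a (ρ (β i c))).det
  let om : K → (Fin w → Derivation k K K) → K := fun h D => g * h * ∏ i, dt i D ^ Q
  let hh : Fin (w + 1) → K := Fin.cases 1 fun a => ρ (β i0 a)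
  have hpl : ∀ h, IsPluri (k := k) (Q * r0) (om h) := by
    intro h A D
    simp only [om, dt]
    have h1 : ∀ i, (Matrix.of fun a c => (∑ j, A a j • D j) (ρ (β i c))).det ^ Q =
        A.det ^ Q * (Matrix.of fun a c => D a (ρ (β i c))).det ^ Q := by
      intro i
      have := form_pluri (k := k) (fun c => ρ (β i c)) Q 1 A D
      unfold form at this
      rwa [one_mul, one_mul] at this
    simp only [h1]
    rw [Finset.prod_mul_distrib, Finset.prod_const, Finset.card_univ, ← pow_mul]
    ring
  -- the numerical inequality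
  have hkap : ∀ i, (1 : ℤ) ≤ Q * cc i * (s i - 2) - r0 * ∑ j, (p i j : ℤ) := by
    intro i
    have h1 : (r0 : ℤ) * ∑ j, (p i j : ℤ) + 2 * Q < Q * s i := by exact_mod_cast hbig i
    have h2 : (1 : ℤ) ≤ cc i := by exact_mod_cast hcc1 i
    have h3 : (0 : ℤ) ≤ ∑ j, (p i j : ℤ) := Finset.sum_nonneg fun _ _ => by positivity
    have h4 : (0 : ℤ) ≤ (Q : ℤ) * (s i - 2) := by nlinarith
    nlinarith
  -- the local estimate, in terms of the estimates of the determinants
  have hlocal : ∀ (P : Place k K) (j : Fin (w + 1)) (ξ : ι → K) (v : ∀ i, Fin (s i) → ℕ)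
      (D : Fin w → Derivation k K K) (δ : ℤ),
      (∀ i j, P.ord (1 - algebraMap k K (b i j) * ρ i) = (v i j : ℤ) - v i (τ i)) →
      (∀ i, P.ord (ξ i) = ∑ j, (v i j : ℤ) - 2 * v i (τ i)) →
      (∀ i, -(v i (τ i) : ℤ) ≤ P.ord (ρ i)) →
      (∀ i, Ge P (-δ + ∑ c, P.ord (ξ (β i c))) (dt i D)) →
      (Q : ℤ) * δ ≤ ∑ i, ∑ j, (p i j * v i j : ℤ) → P.Reg (om (hh j) D) := by
    intro P j ξ v D δ hordx hordξ hordρ hdet hδ
    have hprod : Ge P (∑ i, (Q : ℤ) * (-δ + ∑ c, P.ord (ξ (β i c)))) (∏ i, dt i D ^ Q) :=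
      Ge.prod Finset.univ _ _ fun i _ => (hdet i).pow Q
    -- the double count
    have hdc : ∑ i, ∑ c, P.ord (ξ (β i c)) = ∑ b, (cc b : ℤ) * P.ord (ξ b) := by
      have h1 : ∀ i c, P.ord (ξ (β i c)) = ∑ b, (if β i c = b then 1 else 0) * P.ord (ξ b) := by
        intro i c
        simp
      simp only [h1]
      have h2 : ∀ i, ∑ c, ∑ b, (if β i c = b then 1 else 0) * P.ord (ξ b) =
          ∑ b, ∑ c, (if β i c = b then 1 else 0) * P.ord (ξ b) := fun i => Finset.sum_comm
      simp only [h2]
      rw [Finset.sum_comm]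
      refine Finset.sum_congr rfl fun b _ => ?_
      simp only [cc]
      push_cast
      rw [Finset.sum_mul]
      refine Finset.sum_congr rfl fun i _ => ?_
      rw [Finset.sum_mul]
    have hgo : P.ord g = ∑ i, ∑ j, ex i j * ((v i j : ℤ) - v i (τ i)) := by
      simp only [g]
      rw [ord_prod_univ P _ _ fun i _ => Finset.prod_ne_zero_iff.2 fun j _ =>
        zpow_ne_zero _ (hx0 i j)]
      refine Finset.sum_congr rfl fun i _ => ?_
      rw [ord_prod_univ P _ _ fun j _ => zpow_ne_zero _ (hx0 i j)]
      refine Finset.sum_congr rfl fun j _ => ?_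
      rw [P.ord_zpow]
      simp only [x]
      rw [hordx]
    have hext : Ge P (-∑ i, (v i (τ i) : ℤ)) (hh j) := by
      refine Fin.cases ?_ (fun a => ?_) j
      · change Ge P _ (1 : K)
        refine Ge.one.mono ?_
        have : (0 : ℤ) ≤ ∑ i, (v i (τ i) : ℤ) := Finset.sum_nonneg fun _ _ => by positivity
        linarith
      · change Ge P _ (ρ (β i0 a))
        refine (ge_ord P _).mono ?_
        have h1 := hordρ (β i0 a)
        have h2 := Finset.single_le_sum (f := fun i => (v i (τ i) : ℤ)) (fun _ _ => by positivity)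
          (Finset.mem_univ (β i0 a))
        linarith
    have htot := ((ge_ord P g).mul hext).mul hprod
    refine htot.mono ?_
    rw [hgo, ← Finset.mul_sum, Finset.sum_add_distrib, hdc, Finset.sum_const, Finset.card_univ,
      ← hr0d]
    have hid : ∑ i, ∑ j, ex i j * ((v i j : ℤ) - v i (τ i)) + Q * ∑ b, (cc b : ℤ) * P.ord (ξ b) =
        r0 * ∑ i, ∑ j, (p i j * v i j : ℤ) +
        ∑ i, (v i (τ i) : ℤ) * (Q * cc i * (s i - 2) - r0 * ∑ j, (p i j : ℤ)) := by
      rw [Finset.mul_sum, Finset.mul_sum, ← Finset.sum_add_distrib, ← Finset.sum_add_distrib]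
      refine Finset.sum_congr rfl fun i _ => ?_
      rw [hordξ]
      have h1 : ∑ j, ex i j * ((v i j : ℤ) - v i (τ i)) =
          r0 * ∑ j, (p i j * v i j : ℤ) - (r0 * ∑ j, (p i j : ℤ)) * v i (τ i) -
          Q * cc i * ∑ j, (v i j : ℤ) + Q * cc i * s i * v i (τ i) := by
        simp only [ex]
        simp only [Finset.mul_sum, Finset.sum_mul]
        have h2 : (Q : ℤ) * cc i * s i * v i (τ i) = ∑ _j : Fin (s i), (Q : ℤ) * cc i * v i (τ i) := by
          rw [Finset.sum_const, Finset.card_univ, Fintype.card_fin, nsmul_eq_mul]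
          ring
        rw [h2, ← Finset.sum_sub_distrib, ← Finset.sum_sub_distrib, ← Finset.sum_add_distrib]
        refine Finset.sum_congr rfl fun j _ => ?_
        ring
      rw [h1]
      ring
    have hnn : (∑ i, (v i (τ i) : ℤ)) ≤
        ∑ i, (v i (τ i) : ℤ) * (Q * cc i * (s i - 2) - r0 * ∑ j, (p i j : ℤ)) := by
      refine Finset.sum_le_sum fun i _ => ?_
      have h1 := hkap i
      have h2 : (0 : ℤ) ≤ v i (τ i) := by positivity
      nlinarith
    have h3 : (0 : ℤ) < r0 := by exact_mod_cast hr0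
    simp only [nsmul_eq_mul]
    nlinarith
  -- the change of coordinates in the determinants
  have hdtx : ∀ (ξ : ι → K) (u : ι → k) (hξ0 : ∀ i, ξ i ≠ 0)
      (hDξ : ∀ (i : ι) (D : Derivation k K K), D (ρ i) = algebraMap k K (u i) * D (ξ i)) (i : ι)
      (D : Fin w → Derivation k K K),
      dt i D = (∏ c, algebraMap k K (u (β i c)) * ξ (β i c)) *
        (Matrix.of fun a c => D a (ξ (β i c)) / ξ (β i c)).det := by
    intro ξ u hξ0 hDξ i D
    rw [← Matrix.det_mul_row]
    change (Matrix.of fun a c => D a (ρ (β i c))).det = _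
    congr 1
    ext a c
    simp only [Matrix.of_apply]
    rw [hDξ]
    have := hξ0 (β i c)
    field_simp
  have hfac : ∀ (P : Place k K) (ξ : ι → K) (u : ι → k) (i : ι),
      Ge P (∑ c, P.ord (ξ (β i c))) (∏ c, algebraMap k K (u (β i c)) * ξ (β i c)) := by
    intro P ξ u i
    refine Ge.prod Finset.univ _ (fun c => P.ord (ξ (β i c))) fun c _ => ?_
    have h2 := (Ge.const (P := P) (u (β i c))).mul (ge_ord P (ξ (β i c)))
    simpa using h2
  -- the dual basis
  have hdual : ∀ a : Fin w, ∃ D : Derivation k K K, ∀ c, D (ρ (β i0 c)) = if a = c then 1 else 0 :=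
    fun a => exists_der (fun c => ρ (β i0 c)) (hbas i0) fun c => if a = c then 1 else 0
  choose D0 hD0 using hdual
  have hd0 : ∀ i, dt i D0 ≠ 0 := fun i => det_ne (hbas i) hD0
  have hP0 : ∏ i, dt i D0 ^ Q ≠ 0 := Finset.prod_ne_zero_iff.2 fun i _ => pow_ne_zero _ (hd0 i)
  refine ⟨hw, Q * r0, Nat.mul_pos hQ hr0, fun j => om (hh j), fun j => hpl _, ?_, ?_, D0, ?_, ?_⟩
  · -- logarithmic poles
    intro P _ j D hD
    choose ξ u v hξ0 hDξ hordx huniq hordξ hordρ using fun i =>
      local_coord P (hρ i) (b i) (τ i) (hb0 i) (hinj i)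
    refine hlocal P j ξ v D 0 hordx hordξ hordρ (fun i => ?_) ?_
    · rw [hdtx ξ u hξ0 hDξ i D, neg_zero, zero_add]
      have h1 : Ge P 0 (Matrix.of fun a c => D a (ξ (β i c)) / ξ (β i c)).det :=
        ge_det P _ 0 (fun _ _ => 0) (fun a c => hD a _) (fun σ => by simp)
      have h2 := (hfac P ξ u i).mul h1
      rwa [add_zero] at h2
    · rw [mul_zero]
      positivity
  · -- regular forms
    intro P _ hBd j D hD
    choose ξ u v hξ0 hDξ hordx huniq hordξ hordρ using fun i =>
      local_coord P (hρ i) (b i) (τ i) (hb0 i) (hinj i)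
    by_cases hv : ∃ i j, v i j ≠ 0
    · refine hlocal P j ξ v D 1 hordx hordξ hordρ (fun i => ?_) ?_
      · rw [hdtx ξ u hξ0 hDξ i D, add_comm]
        exact (hfac P ξ u i).mul (det_log D hD (fun c => ξ (β i c)) fun c => hξ0 _)
      · have h1 := hadm P hBd v hv huniq fun i => ⟨v i (τ i), fun j => hordx i j⟩
        rw [mul_one]
        exact_mod_cast h1
    · push Not at hv
      refine hlocal P j ξ v D 0 hordx hordξ hordρ (fun i => ?_) ?_
      · have h0 : ∀ c, P.ord (ξ (β i c)) = 0 := by
          intro c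
          rw [hordξ]
          simp [hv]
        simp only [h0, Finset.sum_const_zero, neg_zero, add_zero]
        have h2 : ∀ a c, Ge P 0 (D a (ρ (β i c))) := by
          intro a c
          refine hD a _ (Or.inr ?_)
          have := hordρ (β i c)
          rw [hv] at this
          simpa using this
        exact ge_det P _ 0 (fun _ _ => 0) (fun a c => h2 a c) (fun σ => by simp)
      · rw [mul_zero]
        positivity
  · change g * 1 * _ ≠ 0
    rw [mul_one]
    exact mul_ne_zero hg0 hP0
  · have h1 : (fun i : Fin w => om (hh i.succ) D0 / om (hh 0) D0) = fun i => ρ (β i0 i) := by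
      funext i
      change g * ρ (β i0 i) * _ / (g * 1 * _) = _
      field_simp
    rw [h1]
    exact (hbas i0).1

end Pool.Agent.Helper1K9.PK
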