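import Pool.Agent.W602.GT.Core

/-!
Local coordinates at a place, for a function on a line with finitely many branch points one of
which is at infinity.
-/

set_option autoImplicit false

open FF Pool.Agent.W603.LV Pool.Agent.W602.GT

namespace Pool.Agent.Helper1K9.PK

variable {k K : Type} [Field k] [Field K] [Algebra k K]

theorem ne_of_transc {ρ : K} (hρ : Transcendental k ρ) (b : k) : 1 - algebraMap k K b * ρ ≠ 0 := by
  intro h
  have hb : b ≠ 0 := by
    rintro rfl
    simp at h
  apply hρ
  have h1 : ρ = algebraMap k K b⁻¹ := by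
    have h2 : algebraMap k K b ≠ 0 := (map_ne_zero _).2 hb
    rw [map_inv₀]
    field_simp
    linear_combination -h
  rw [h1]
  exact isAlgebraic_algebraMap _

theorem ord_sub_const {P : Place k K} {ρ : K} (hρ : Transcendental k ρ) (h : P.ord ρ < 0) {b : k}
    (hb : b ≠ 0) : P.ord (1 - algebraMap k K b * ρ) = P.ord ρ := by
  have hρ0 : ρ ≠ 0 := fun h0 => hρ (h0 ▸ isAlgebraic_zero)
  have hb0 : algebraMap k K b ≠ 0 := (map_ne_zero _).2 hb
  have h1 : P.ord (-(algebraMap k K b * ρ)) = P.ord ρ := by
    rw [P.ord_neg, P.ord_mul hb0 hρ0, P.ord_const hb, zero_add]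
  have h2 := P.ord_add_eq (f := -(algebraMap k K b * ρ)) (g := 1)
    (neg_ne_zero.2 (mul_ne_zero hb0 hρ0)) one_ne_zero (by rw [h1, P.ord_one]; exact h)
  have h3 : 1 - algebraMap k K b * ρ = -(algebraMap k K b * ρ) + 1 := by ring
  rw [h3, h2.2, h1]

/-- **Local coordinates.** -/
theorem local_coord [CharZero k] (P : Place k K) {ρ : K} (hρ : Transcendental k ρ) {s : ℕ}
    (b : Fin s → k) (τ : Fin s) (hb0 : b τ = 0) (hinj : Function.Injective b) :
    ∃ (ξ : K) (u : k) (v : Fin s → ℕ), ξ ≠ 0 ∧
      (∀ D : Derivation k K K, D ρ = algebraMap k K u * D ξ) ∧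
      (∀ j, P.ord (1 - algebraMap k K (b j) * ρ) = (v j : ℤ) - v τ) ∧
      (∀ j l, v j ≠ 0 → v l ≠ 0 → j = l) ∧
      P.ord ξ = ∑ j, (v j : ℤ) - 2 * v τ ∧ -(v τ : ℤ) ≤ P.ord ρ := by
  classical
  have hρ0 : ρ ≠ 0 := fun h0 => hρ (h0 ▸ isAlgebraic_zero)
  by_cases h : P.ord ρ < 0
  · -- a pole
    obtain ⟨n, hn⟩ : ∃ n : ℕ, (n : ℤ) = -P.ord ρ := ⟨(-P.ord ρ).toNat, by omega⟩
    refine ⟨ρ, 1, Pi.single τ n, hρ0, fun D => by rw [map_one, one_mul], fun j => ?_,
      fun j l hj hl => ?_, ?_, ?_⟩
    · by_cases hj : j = τ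
      · subst hj
        rw [hb0, map_zero, zero_mul, sub_zero, P.ord_one]
        ring
      · have hbj : b j ≠ 0 := fun h0 => hj (hinj (h0.trans hb0.symm))
        rw [ord_sub_const hρ h hbj, Pi.single_eq_same, Pi.single_eq_of_ne hj]
        push_cast
        omega
    · have h1 : ∀ j, (Pi.single τ n : Fin s → ℕ) j ≠ 0 → j = τ := by
        intro j hj
        by_contra hne
        exact hj (Pi.single_eq_of_ne hne _)
      rw [h1 j hj, h1 l hl]
    · have h1 : ∑ j, ((Pi.single τ n : Fin s → ℕ) j : ℤ) = n := by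
        rw [← Nat.cast_sum, Finset.sum_pi_single']
        simp
      rw [h1, Pi.single_eq_same]
      omega
    · rw [Pi.single_eq_same]
      omega
  · push Not at h
    by_cases hz : ∃ j, j ≠ τ ∧ 0 < P.ord (1 - algebraMap k K (b j) * ρ)
    · obtain ⟨j0, hj0, hpos⟩ := hz
      have hbj : b j0 ≠ 0 := fun h0 => hj0 (hinj (h0.trans hb0.symm))
      have hbK : algebraMap k K (b j0) ≠ 0 := (map_ne_zero _).2 hbj
      obtain ⟨n, hn⟩ : ∃ n : ℕ, (n : ℤ) = P.ord (1 - algebraMap k K (b j0) * ρ) :=
        ⟨(P.ord (1 - algebraMap k K (b j0) * ρ)).toNat, by omega⟩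
      have hother : ∀ j, j ≠ j0 → P.ord (1 - algebraMap k K (b j) * ρ) = 0 := by
        intro j hj
        -- `1 - b_j ρ = (b_j0 - b_j)/b_j0 + (b_j/b_j0) (1 - b_j0 ρ)`
        have hd : (b j0 - b j) / b j0 ≠ 0 :=
          div_ne_zero (sub_ne_zero.2 fun h0 => hj (hinj h0.symm)) hbj
        have e1 : 1 - algebraMap k K (b j) * ρ = algebraMap k K ((b j0 - b j) / b j0) +
            algebraMap k K (b j / b j0) * (1 - algebraMap k K (b j0) * ρ) := by
          rw [map_div₀, map_div₀, map_sub]
          field_simp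
          ring
        by_cases hbj' : b j = 0
        · rw [hbj', map_zero, zero_mul, sub_zero, P.ord_one]
        · have hq : b j / b j0 ≠ 0 := div_ne_zero hbj' hbj
          have hqK : algebraMap k K (b j / b j0) ≠ 0 := (map_ne_zero _).2 hq
          have hx0 := ne_of_transc hρ (b j0)
          have h2 := P.ord_add_eq (f := algebraMap k K ((b j0 - b j) / b j0))
            (g := algebraMap k K (b j / b j0) * (1 - algebraMap k K (b j0) * ρ))
            ((map_ne_zero _).2 hd) (mul_ne_zero hqK hx0) (by
              rw [P.ord_const hd, P.ord_mul hqK hx0, P.ord_const hq, zero_add]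
              exact hpos)
          rw [e1, h2.2, P.ord_const hd]
      refine ⟨1 - algebraMap k K (b j0) * ρ, -(b j0)⁻¹, Pi.single j0 n, ne_of_transc hρ _,
        fun D => ?_, fun j => ?_, fun j l hj hl => ?_, ?_, ?_⟩
      · rw [map_sub, D.map_one_eq_zero, zero_sub, D.leibniz, Derivation.map_algebraMap,
          smul_zero, add_zero, smul_eq_mul, map_neg, map_inv₀]
        field_simp
      · by_cases hj : j = j0
        · subst hj
          rw [Pi.single_eq_same, Pi.single_eq_of_ne (Ne.symm hj0)]
          push_cast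
          omega
        · rw [hother j hj, Pi.single_eq_of_ne hj, Pi.single_eq_of_ne (Ne.symm hj0)]
          simp
      · have h1 : ∀ j, (Pi.single j0 n : Fin s → ℕ) j ≠ 0 → j = j0 := by
          intro j hj
          by_contra hne
          exact hj (Pi.single_eq_of_ne hne _)
        rw [h1 j hj, h1 l hl]
      · have h1 : ∑ j, ((Pi.single j0 n : Fin s → ℕ) j : ℤ) = n := by
          rw [← Nat.cast_sum, Finset.sum_pi_single']
          simp
        rw [h1, Pi.single_eq_of_ne (Ne.symm hj0)]
        push_cast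
        omega
      · rw [Pi.single_eq_of_ne (Ne.symm hj0)]
        push_cast
        omega
    · push Not at hz
      -- all functions are units
      have hge : ∀ j, P.ord (1 - algebraMap k K (b j) * ρ) = 0 := by
        intro j
        by_cases hj : j = τ
        · rw [hj, hb0, map_zero, zero_mul, sub_zero, P.ord_one]
        · refine le_antisymm (hz j hj) ?_
          have h1 : Ge P 0 (1 - algebraMap k K (b j) * ρ) := by
            refine Ge.one.sub ?_
            have h2 := (Ge.const (P := P) (b j)).mul (Or.inr h : Ge P 0 ρ)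
            simpa using h2
          exact h1.resolve_left (ne_of_transc hρ _)
      obtain ⟨c, hc⟩ : ∃ c : k, P.ord (ρ - algebraMap k K c) = 0 := by
        by_cases h0 : P.ord ρ = 0
        · exact ⟨0, by rw [map_zero, sub_zero, h0]⟩
        · refine ⟨1, ?_⟩
          have h1 := P.ord_add_eq (f := -(algebraMap k K 1)) (g := ρ)
            (neg_ne_zero.2 ((map_ne_zero _).2 one_ne_zero)) hρ0 (by
              rw [P.ord_neg, P.ord_const one_ne_zero]
              omega)
          have e1 : ρ - algebraMap k K 1 = -(algebraMap k K 1) + ρ := by ring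
          rw [e1, h1.2, P.ord_neg, P.ord_const one_ne_zero]
      refine ⟨ρ - algebraMap k K c, 1, 0, ?_, fun D => ?_, fun j => ?_, fun j l hj _ => ?_, ?_, ?_⟩
      · intro h0
        apply hρ
        rw [sub_eq_zero.1 h0]
        exact isAlgebraic_algebraMap _
      · rw [map_one, one_mul, map_sub, Derivation.map_algebraMap, sub_zero]
      · rw [hge j]
        simp
      · exact absurd rfl hj
      · rw [hc]
        simp
      · simpa using h

end Pool.Agent.Helper1K9.PK
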