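import Pool.Agent.Helper1K9.PK.Loc
import Pool.Agent.Y221.AP.Ct

/-!
The places of the field of meromorphic functions which are given by the points of the domain.
-/

set_option autoImplicit false

open FF Pool.Agent.W603.LV Pool.Agent.W602.GT

namespace Pool.Agent.Helper1K9.PK

open Filter Metric Set Topology Pool.Agent.W603.BP Pool.Agent.Y221.AP

theorem odr_zero {z : ℂ} (hz : z ∈ Om) : odr 0 z = ⊤ := by
  unfold odr
  rw [meromorphicOrderAt_eq_top_iff]
  have := cod_ev (Fn_const_codis 0) hz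
  rw [map_zero] at this
  exact this

/-- the place of the field of meromorphic functions given by a point -/
noncomputable def plc {z : ℂ} (hz : z ∈ Om) : Place ℂ MK where
  ord x := (odr x z).untopD 0
  ord_zero := by rw [odr_zero hz]; rfl
  ord_mul := by
    intro f g hf hg
    obtain ⟨a, ha⟩ := WithTop.ne_top_iff_exists.1 (odr_ne_top hf hz)
    obtain ⟨b, hb⟩ := WithTop.ne_top_iff_exists.1 (odr_ne_top hg hz)
    rw [odr_mul f g hz, ← ha, ← hb, ← WithTop.coe_add, WithTop.untopD_coe, WithTop.untopD_coe,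
      WithTop.untopD_coe]
  ord_add := by
    intro f g hf hg hfg
    obtain ⟨a, ha⟩ := WithTop.ne_top_iff_exists.1 (odr_ne_top hf hz)
    obtain ⟨b, hb⟩ := WithTop.ne_top_iff_exists.1 (odr_ne_top hg hz)
    obtain ⟨c, hc⟩ := WithTop.ne_top_iff_exists.1 (odr_ne_top hfg hz)
    have h1 : min (odr f z) (odr g z) ≤ odr (f + g) z := by
      unfold odr
      rw [meromorphicOrderAt_congr (cod_ev (Fn_add_codis f g) hz)]
      exact meromorphicOrderAt_add (Fn_mero f z hz) (Fn_mero g z hz)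
    rw [← ha, ← hb, ← hc] at h1 ⊢
    rw [WithTop.untopD_coe, WithTop.untopD_coe, WithTop.untopD_coe]
    exact_mod_cast h1
  ord_const := by
    intro c hc
    have h1 : odr (algebraMap ℂ MK c) z = 0 := by
      rw [odr_zero_iff hz, (Fn_const c hz).self_of_nhds]
      exact hc
    rw [h1]
    rfl
  surj := by
    have hm : MeromorphicOn (fun w : ℂ => w - z) Om := fun w _ =>
      (by fun_prop : AnalyticAt ℂ (fun w : ℂ => w - z) w).meromorphicAt
    have h1 : odr (cl (fun w => w - z) hm) z = ((1 : ℤ) : WithTop ℤ) := by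
      rw [odr_cl hm hz, meromorphicOrderAt_eq_int_iff (hm z hz)]
      exact ⟨fun _ => 1, analyticAt_const, one_ne_zero, Eventually.of_forall fun w => by simp⟩
    refine ⟨cl (fun w => w - z) hm, ?_, ?_⟩
    · intro h0
      rw [h0, odr_zero hz] at h1
      exact WithTop.top_ne_coe h1
    · rw [h1]
      rfl

theorem odr_eq {z : ℂ} (hz : z ∈ Om) {x : MK} (hx : x ≠ 0) :
    odr x z = (((plc hz).ord x : ℤ) : WithTop ℤ) := by
  obtain ⟨a, ha⟩ := WithTop.ne_top_iff_exists.1 (odr_ne_top hx hz)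
  change _ = (((odr x z).untopD 0 : ℤ) : WithTop ℤ)
  rw [← ha]
  rfl

theorem reg_plc {z : ℂ} (hz : z ∈ Om) {x : MK} : Reg x z ↔ Ge (plc hz) 0 x := by
  rw [reg_iff hz]
  by_cases hx : x = 0
  · rw [hx, odr_zero hz]
    exact ⟨fun _ => Or.inl rfl, fun _ => le_top⟩
  · rw [odr_eq hz hx]
    unfold Ge
    simp only [hx, false_or]
    exact_mod_cast Iff.rfl

theorem ge_plc {z : ℂ} (hz : z ∈ Om) {x : MK} {n : ℤ} :
    ((n : ℤ) : WithTop ℤ) ≤ odr x z ↔ Ge (plc hz) n x := by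
  by_cases hx : x = 0
  · rw [hx, odr_zero hz]
    exact ⟨fun _ => Or.inl rfl, fun _ => le_top⟩
  · rw [odr_eq hz hx, WithTop.coe_le_coe]
    unfold Ge
    simp only [hx, false_or]

theorem ge_MD {z : ℂ} (hz : z ∈ Om) {x : MK} (hx : x ≠ 0) :
    Ge (plc hz) ((plc hz).ord x - if (plc hz).ord x ≠ 0 then 1 else 0) (MD x) := by
  by_cases h0 : (plc hz).ord x = 0
  · rw [if_neg (not_not.2 h0), h0, sub_zero, ← reg_plc hz]
    have h1 : Reg x z := (reg_plc hz).2 (Or.inr h0.ge)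
    exact h1.MD hz
  · rw [if_pos h0, ← ge_plc hz]
    have h1 : odr (MD x) z = (((plc hz).ord x - 1 : ℤ) : WithTop ℤ) := by
      unfold odr
      rw [meromorphicOrderAt_congr (cod_ev (Fn_MD_codis x) hz)]
      refine meromorphicOrderAt_deriv_eq_sub_one (n := (plc hz).ord x) ?_ (odr_eq hz hx)
      exact_mod_cast h0
    rw [h1]

theorem transc_of {x : MK} (h : MD x ≠ 0) : Transcendental ℂ x := by
  intro h0
  obtain ⟨c, rfl⟩ := const_of_algebraic h0
  exact h (MD_const c)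

theorem MD_ne {x : MK} (h : Transcendental ℂ x) : MD x ≠ 0 := by
  intro h0
  obtain ⟨c, rfl⟩ := MD_zero h0
  exact h (isAlgebraic_algebraMap c)

/-- **Local analysis.** -/
theorem local_ana {z : ℂ} (hz : z ∈ Om) {ρ : MK} (hρ : Transcendental ℂ ρ) {s : ℕ}
    (b : Fin s → ℂ) (τ : Fin s) (hb0 : b τ = 0) (hinj : Function.Injective b) :
    ∃ v : Fin s → ℕ,
      (∀ j, (plc hz).ord (1 - algebraMap ℂ MK (b j) * ρ) = (v j : ℤ) - v τ) ∧
      (∀ j l, v j ≠ 0 → v l ≠ 0 → j = l) ∧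
      Ge (plc hz) (∑ j, (v j : ℤ) - 2 * v τ - if ∃ j, v j ≠ 0 then 1 else 0) (MD ρ) := by
  obtain ⟨ξ, u, v, hξ0, hD, hord, huniq, hξ, -⟩ := local_coord (plc hz) hρ b τ hb0 hinj
  refine ⟨v, hord, huniq, ?_⟩
  have h1 : MD ρ = algebraMap ℂ MK u * MD ξ := hD MDer
  rw [h1]
  have h2 := (Ge.const (P := plc hz) u).mul (ge_MD hz hξ0)
  refine h2.mono ?_
  rw [hξ, zero_add]
  by_cases hv : ∃ j, v j ≠ 0
  · rw [if_pos hv]
    split_ifs <;> omega
  · rw [if_neg hv]
    push Not at hv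
    rw [if_neg]
    simp [hv]

end Pool.Agent.Helper1K9.PK
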