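import Pool.Agent.Helper1K9.PK.Core
import Pool.Agent.Helper1K9.PK.Alg
import Pool.Agent.Y221.PD.Main
import Pool.Agent.Y190.AN.Pic
import Pool.Agent.Y190.AN.Cg
import Pool.Agent.W602.GT.PsFin

/-!
The five conditions for the quasi-projective varieties with a generically finite map to a closed
subvariety of a cover without some fibres.
-/

set_option autoImplicit false
set_option linter.overlappingInstances false

open FF Pool.Agent.W603.LV Pool.Agent.W602.GT Pool.Agent.TH466.QG

namespace Pool.Agent.Helper1K9.PK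

open Filter Metric Set Topology Pool.Agent.W603.BP Pool.Agent.Y221.AP
open Pool.Agent.Y221.PD (val_cl)
open Pool.Agent.H159R3.GGLLog (Pts SpH SpT TorusCurve)
open Pool.Agent.Y190.AN (SpCg spH_sub spCg_eq)

variable {n r : ℕ} (X : Cover n r)

/-- **The points with values in the field of meromorphic functions.** -/
theorem minf_of_pt (hX : X.Big) {t : Fin n → MK} {y : Fin r → MK} (hpt : X.Pt t y)
    (hint : ∀ (z : ℂ) (hz : z ∈ Om) i j, j ∈ X.bd i →
      (plc hz).Reg (t i - algebraMap ℂ MK (X.c i j))⁻¹) (i : Fin n) : MInf (t i) := by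
  classical
  obtain ⟨p, Q, hQ, hp, hb⟩ := hX
  let I : Fin n → Prop := fun i => Transcendental ℂ (t i)
  let τ : ∀ i, Fin (X.s i) := fun i => ⟨0, s_pos X hb i⟩
  by_cases hi : I i
  · have htr : ∀ i : {i // I i},
        Transcendental ℂ (t i.1 - algebraMap ℂ MK (X.c i.1 (τ i.1)))⁻¹ := by
      intro i h
      apply i.2
      have h1 := h.inv
      rw [inv_inv] at h1
      have h2 := h1.add (isAlgebraic_algebraMap (X.c i.1 (τ i.1)))
      rwa [sub_add_cancel] at h2
    have h1 := ana_core (ι := {i // I i}) (s := fun i => X.s i.1)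
      (fun i j => X.c i.1 j - X.c i.1 (τ i.1)) (fun i => τ i.1) (fun i => sub_self _)
      (fun i j l h => X.c_inj i.1 (sub_left_injective h))
      (fun i => (t i.1 - algebraMap ℂ MK (X.c i.1 (τ i.1)))⁻¹) htr (fun i j => p i.1 j) hQ
      (fun i => card_le X hb i.1)
      (fun z hz v hv hone hord => adm_of_place X hpt hp τ (plc hz) (hint z hz) (s_two X hb)
        v hv hone hord) ⟨i, hi⟩
    have h2 := h1.inv.add (minf_const (X.c i (τ i)))
    rwa [inv_inv, sub_add_cancel] at h2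
  · have h1 : IsAlgebraic ℂ (t i) := not_not.1 hi
    obtain ⟨c, hc⟩ := const_of_algebraic h1
    rw [hc]
    exact minf_const c

/-- elements which are algebraic over functions which are meromorphic at infinity -/
theorem minf_of_adjoin {t : Fin n → MK} (ht : ∀ i, MInf (t i)) {x : MK}
    (hx : IsAlgebraic (IntermediateField.adjoin ℂ (Set.range t)) x) : MInf x := by
  have hle : IntermediateField.adjoin ℂ (Set.range t) ≤ MI := by
    rw [IntermediateField.adjoin_le_iff]
    rintro _ ⟨i, rfl⟩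
    exact ht i
  exact minf_of_alg (alg_mono hle hx)

section five

variable {M : ℕ} {U : Set (Fin (M + 1))} {ι : Type} {F : ι → MvPolynomial (Fin (M + 1)) ℂ}

theorem coneU_eq : ConeU U F = Pts U F := by
  ext x
  constructor
  · rintro ⟨h1, h2, h3⟩
    exact ⟨h1, h2, fun e => by
      have := h3 e
      unfold val at this
      rwa [MvPolynomial.aeval_eq_eval] at this⟩
  · rintro ⟨h1, h2, h3⟩
    exact ⟨h1, h2, fun e => by
      unfold val
      rw [MvPolynomial.aeval_eq_eval]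
      exact h3 e⟩

theorem val_eval (z : Fin (M + 1) → ℂ) (G : MvPolynomial (Fin (M + 1)) ℂ) :
    val z G = MvPolynomial.eval z G := by
  unfold val
  rw [MvPolynomial.aeval_eq_eval]

/-- **The exceptional set.** -/
theorem exc (hX : X.Big) {L : Type} [Field L] [Algebra ℂ L] {w : ℕ} {x : Fin (M + 1) → L}
    (hx : SubVarU U F L w x)
    (hgen : ∀ G : MvPolynomial (Fin (M + 1)) ℂ, IsForm G →
      (val x G = 0 ↔ ∀ z ∈ Pts U F, MvPolynomial.eval z G = 0))
    {t : Fin n → L} {y : Fin r → L} (hpt : X.Pt t y)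
    (halg : Algebra.IsAlgebraic (IntermediateField.adjoin ℂ (Set.range t)) L)
    (hbd : ∀ i j, j ∈ X.bd i → RegularOn U x (t i - algebraMap ℂ L (X.c i j))⁻¹) :
    ∃ R : MvPolynomial (Fin (M + 1)) ℂ, IsForm R ∧ val x R ≠ 0 ∧
      (∀ (E : Type) [Field E] [Algebra ℂ E] (w' : ℕ) (z : Fin (M + 1) → E), 1 ≤ w' →
        SubVarU U F E w' z → val z R ≠ 0 → LogGeneralType ℂ E w' (OffU U z)) ∧
      ∀ f, PCurve U F f → ¬ Extends f → ∀ t ∈ ball (0 : ℂ) 1 \ {0},
        MvPolynomial.eval (f t) R = 0 := by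
  classical
  obtain ⟨i1, hi1'⟩ := Function.ne_iff.1 hx.ne
  have hi1 : x i1 ≠ 0 := hi1'
  obtain ⟨H, hH, hspec⟩ := spec_pt X hpt halg (adjoin_norm hx.gen hi1)
  refine ⟨MvPolynomial.X i1 * hz i1 H, ?_, ?_, ?_, ?_⟩
  · obtain ⟨d, hd⟩ := hz_form i1 H
    exact ⟨1 + d, (MvPolynomial.isHomogeneous_X ℂ i1).mul hd⟩
  · change MvPolynomial.aeval x _ ≠ 0
    rw [map_mul, MvPolynomial.aeval_X]
    refine mul_ne_zero hi1 ?_
    change val x _ ≠ 0
    rw [val_hz H hi1]
    exact mul_ne_zero (pow_ne_zero _ hi1) hH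
  · intro E _ _ w' z hw1 hz hzR
    change MvPolynomial.aeval z _ ≠ 0 at hzR
    rw [map_mul, MvPolynomial.aeval_X] at hzR
    have hz1 : z i1 ≠ 0 := left_ne_zero_of_mul hzR
    have hzH : MvPolynomial.aeval (fun i => z i / z i1) H ≠ 0 := by
      have h1 : val z (Pool.Agent.TH466.QG.hz i1 H) ≠ 0 := right_ne_zero_of_mul hzR
      rw [val_hz H hz1] at h1
      exact right_ne_zero_of_mul h1
    have hsp : ∀ G : MvPolynomial (Fin (M + 1)) ℂ,
        MvPolynomial.aeval (fun i => x i / x i1) G = 0 →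
        MvPolynomial.aeval (fun i => z i / z i1) G = 0 := by
      intro G hG
      have h1 : val x (Pool.Agent.TH466.QG.hz i1 G) = 0 := by
        rw [val_hz G hi1, hG, mul_zero]
      have h2 : val z (Pool.Agent.TH466.QG.hz i1 G) = 0 := by
        refine val_of_cone (U := U) (F := F) hz.ne hz.unit hz.mem fun v hv => ?_
        rw [coneU_eq] at hv
        rw [val_eval]
        exact (hgen _ (hz_form i1 G)).1 h1 v hv
      rw [val_hz G hz1] at h2
      exact (mul_eq_zero.1 h2).resolve_left (pow_ne_zero _ hz1)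
    obtain ⟨S, t', y', hSx, hpt', hSi, halgz⟩ := hspec E (fun i => z i / z i1) hsp hzH
    refine logGeneralType X hX hpt' ?_ hz.dim hw1 fun P hP i j hj => ?_
    · exact alg_over (E := E) (K := E) (adjoin_norm hz.gen hz1) _ halgz
    · exact ((hbd i j hj).spec S hi1 hz1 hSx (hSi i j)).reg hz.unit hP
  intro f hf hess t0 ht0
  by_contra hft
  have hfh : ∀ i, DifferentiableOn ℂ (fun t => f t i) (ball 0 1 \ {0}) := fun i t ht =>
    (differentiableWithinAt_pi.mp (hf.1 t ht)) i
  have hfan : ∀ i, AnalyticOnNhd ℂ (fun w => f w i) (PB 1) := by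
    intro i w hw
    exact (hfh i).analyticAt (disc_open.mem_nhds (mem_disc.mpr hw))
  have hinvPB : ∀ {z : ℂ}, z ∈ Om → z⁻¹ ∈ PB 1 := by
    intro z hz
    exact inv_mem_PB one_pos (by rwa [inv_one])
  have hPBinv : ∀ {w : ℂ}, w ∈ PB 1 → w⁻¹ ∈ Om := by
    intro w hw
    have := inv_mem_Ext hw
    rwa [inv_one] at this
  have hOm0 : ∀ {z : ℂ}, z ∈ Om → z ≠ 0 := by
    intro z hz h0
    have h1 : (1 : ℝ) < ‖z‖ := hz
    rw [h0, norm_zero] at h1
    linarith
  obtain ⟨f', hf'⟩ : ∃ f' : Fin (M + 1) → ℂ → ℂ, ∀ i z, f' i z = f z⁻¹ i := ⟨_, fun _ _ => rfl⟩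
  have hf'an : ∀ i, ∀ z ∈ Om, AnalyticAt ℂ (f' i) z := by
    intro i z hz
    have h1 : f' i = (fun w => f w i) ∘ fun z => z⁻¹ := by
      funext v
      exact hf' i v
    rw [h1]
    exact AnalyticAt.comp (hfan i _ (hinvPB hz)) (analyticAt_inv (hOm0 hz))
  have hmer : ∀ i, MeromorphicOn (f' i) Om := fun i z hz => (hf'an i z hz).meromorphicAt
  obtain ⟨z, hzdef⟩ : ∃ z : Fin (M + 1) → MK, z = fun i => cl (f' i) (hmer i) := ⟨_, rfl⟩
  have hcont : ∀ G : MvPolynomial (Fin (M + 1)) ℂ, ∀ t ∈ Om,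
      ContinuousAt (fun t => MvPolynomial.eval (fun i => f' i t) G) t := fun G t ht =>
    (MvPolynomial.continuous_eval G).continuousAt.comp
      (continuousAt_pi.2 fun i => (hf'an i t ht).continuousAt)
  have hvz : ∀ G, val z G = 0 ↔ ∀ t ∈ Om, MvPolynomial.eval (fun i => f' i t) G = 0 := by
    intro G
    rw [hzdef, val_cl hmer G, cl_eq_zero]
    constructor
    · intro h t ht
      exact eq_of_cod (g := fun _ => 0) h ht (hcont G t ht) continuousAt_const
    · intro h
      filter_upwards [cod_Om] with t ht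
      exact h t ht
  have hevf : ∀ (G : MvPolynomial (Fin (M + 1)) ℂ) (t : ℂ),
      MvPolynomial.eval (fun i => f' i t) G = MvPolynomial.eval (f t⁻¹) G := by
    intro G t
    have h1 : (fun i => f' i t) = f t⁻¹ := by
      funext i
      rw [hf']
    rw [h1]
  have hzR : val z (MvPolynomial.X i1 * hz i1 H) ≠ 0 := by
    intro h0
    apply hft
    have h1 := (hvz _).1 h0 t0⁻¹ (hPBinv (mem_disc.1 ht0))
    rw [hevf, inv_inv] at h1
    exact h1
  change MvPolynomial.aeval z _ ≠ 0 at hzR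
  rw [map_mul, MvPolynomial.aeval_X] at hzR
  have hz1 : z i1 ≠ 0 := left_ne_zero_of_mul hzR
  have hzH : MvPolynomial.aeval (fun i => z i / z i1) H ≠ 0 := by
    have h1 : val z (Pool.Agent.TH466.QG.hz i1 H) ≠ 0 := right_ne_zero_of_mul hzR
    rw [val_hz H hz1] at h1
    exact right_ne_zero_of_mul h1
  have hsp : ∀ G : MvPolynomial (Fin (M + 1)) ℂ,
      MvPolynomial.aeval (fun i => x i / x i1) G = 0 →
      MvPolynomial.aeval (fun i => z i / z i1) G = 0 := by
    intro G hG
    have h1 : val x (Pool.Agent.TH466.QG.hz i1 G) = 0 := by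
      rw [val_hz G hi1, hG, mul_zero]
    have h2 : val z (Pool.Agent.TH466.QG.hz i1 G) = 0 := by
      rw [hvz]
      intro t ht
      rw [hevf]
      exact (hgen _ (hz_form i1 G)).1 h1 _ (hf.2 _ (mem_disc.2 (hinvPB ht)))
    rw [val_hz G hz1] at h2
    exact (mul_eq_zero.1 h2).resolve_left (pow_ne_zero _ hz1)
  obtain ⟨S, t', y', hSx, hpt', hSi, halgz⟩ := hspec MK (fun i => z i / z i1) hsp hzH
  -- the coordinates with index in `U` have no zeros
  have hzan : ∀ l, ∀ v ∈ Om, Reg (z l) v := by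
    intro l v hv
    rw [hzdef]
    have h1 : Fn (cl (f' l) (hmer l)) =ᶠ[nhds v] f' l := Fn_cl (hmer l) hv (hf'an l v hv)
    exact (hf'an l v hv).congr h1.symm
  have hzval : ∀ l, ∀ v ∈ Om, Fn (z l) v = f' l v := by
    intro l v hv
    rw [hzdef]
    have h1 : Fn (cl (f' l) (hmer l)) =ᶠ[nhds v] f' l := Fn_cl (hmer l) hv (hf'an l v hv)
    exact h1.self_of_nhds
  have hzU : ∀ l ∈ U, ∀ v (hv : v ∈ Om), z l ≠ 0 ∧ (plc hv).ord (z l) = 0 := by
    intro l hl v hv
    have h1 : Fn (z l) v ≠ 0 := by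
      rw [hzval l v hv, hf']
      exact (hf.2 _ (mem_disc.2 (hinvPB hv))).2.1 l hl
    have h2 := (odr_zero_iff hv).2 h1
    have h3 : z l ≠ 0 := by
      intro h0
      rw [h0, odr_zero hv] at h2
      exact WithTop.top_ne_coe h2
    refine ⟨h3, ?_⟩
    rw [odr_eq hv h3] at h2
    exact_mod_cast h2
  have hint : ∀ (v : ℂ) (hv : v ∈ Om) i j, j ∈ X.bd i →
      (plc hv).Reg (t' i - algebraMap ℂ MK (X.c i j))⁻¹ := by
    intro v hv i j hj
    obtain ⟨a, G, ha, hG, hfG⟩ := (hbd i j hj).spec S hi1 hz1 hSx (hSi i j)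
    have hprod : ∏ l, z l ^ a l ≠ 0 := by
      refine Finset.prod_ne_zero_iff.2 fun l _ => ?_
      by_cases hl : l ∈ U
      · exact pow_ne_zero _ (hzU l hl v hv).1
      · rw [ha l hl, pow_zero]
        exact one_ne_zero
    have h1 : Ge (plc hv) 0 (MvPolynomial.aeval z G) := by
      have := ge_form (P := plc hv) hG (z := z) (μ := 0) (fun l => (reg_plc hv).1 (hzan l v hv))
      rwa [mul_zero] at this
    have h3 : (plc hv).ord (∏ l, z l ^ a l) = 0 := by
      rw [ord_prod_univ (plc hv) _ _ fun l hl => Finset.prod_ne_zero_iff.1 hprod l hl]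
      refine Finset.sum_eq_zero fun l _ => ?_
      rw [(plc hv).ord_pow]
      by_cases hl : l ∈ U
      · rw [(hzU l hl v hv).2, mul_zero]
      · rw [ha l hl]
        simp
    have h2 : (t' i - algebraMap ℂ MK (X.c i j))⁻¹ = MvPolynomial.aeval z G / ∏ l, z l ^ a l := by
      rw [← hfG]
      field_simp
    rw [h2]
    have h4 := ge_div hprod h1
    rw [h3, sub_zero] at h4
    exact h4
  have hall : ∀ m, MInf (z m / z i1) := fun m =>
    minf_of_adjoin (fun i => minf_of_pt X hX hpt' hint i) (halgz m)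
  apply hess
  refine extends_of f hfan (fun w hw => (hf.2 w (mem_disc.2 hw)).1) fun j k hj hk => ?_
  have hzk : z k ≠ 0 := by
    intro h0
    apply hk
    rw [hzdef] at h0
    have h1 := cl_eq_zero.1 h0
    filter_upwards [PB_mem one_pos] with w hw
    have h2 := eq_of_cod (g := fun _ => 0) h1 (hPBinv hw) (hf'an k _ (hPBinv hw)).continuousAt
      continuousAt_const
    rw [hf', inv_inv] at h2
    exact h2
  have hjk : MInf (z j / z k) := by
    have h1 : z j / z k = (z j / z i1) * (z k / z i1)⁻¹ := by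
      field_simp
    rw [h1]
    exact (hall j).mul (hall k).inv
  refine ⟨fun w => Fn (z j / z k) w⁻¹, hjk, ?_⟩
  have h1 : cl (f' j) (hmer j) = cl (fun t => Fn (z j / z k) t * f' k t)
      ((Fn_mero _).mul (hmer k)) := by
    have h2 : cl (f' j) (hmer j) = z j := by rw [hzdef]
    have h3 : cl (f' k) (hmer k) = z k := by rw [hzdef]
    have h4 : cl (fun t => Fn (z j / z k) t * f' k t) ((Fn_mero _).mul (hmer k)) =
        cl (Fn (z j / z k)) (Fn_mero _) * cl (f' k) (hmer k) := rfl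
    rw [h4, h2, h3, cl_Fn, div_mul_cancel₀ _ hzk]
  rw [cl_eq] at h1
  filter_upwards [hjk.reg, PB_mem one_pos] with w hw1 hw2
  have hwO := hPBinv hw2
  have h2 := eq_of_cod (f := f' j) (g := fun t => Fn (z j / z k) t * f' k t) h1 hwO
    (hf'an j _ hwO).continuousAt (hw1.continuousAt.mul (hf'an k _ hwO).continuousAt)
  rw [hf', hf', inv_inv] at h2
  exact h2

theorem spT_subH : SpT U F ⊆ SpH U F := by
  rintro x ⟨hx, h⟩
  refine ⟨hx, fun G hG hf => h G hG fun v hv t ht => ?_⟩
  have h1 := hf _ hv.entire (Complex.log t)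
  simp only [Complex.exp_log ht] at h1
  exact h1

/-- **The five conditions.** -/
theorem five (hX : X.Big) {L : Type} [Field L] [Algebra ℂ L] {w : ℕ} (hw : 1 ≤ w)
    {x : Fin (M + 1) → L} (hx : SubVarU U F L w x)
    (hgen : ∀ G : MvPolynomial (Fin (M + 1)) ℂ, IsForm G →
      (val x G = 0 ↔ ∀ z ∈ Pts U F, MvPolynomial.eval z G = 0))
    {t : Fin n → L} {y : Fin r → L} (hpt : X.Pt t y)
    (halg : Algebra.IsAlgebraic (IntermediateField.adjoin ℂ (Set.range t)) L)
    (hbd : ∀ i j, j ∈ X.bd i → RegularOn U x (t i - algebraMap ℂ L (X.c i j))⁻¹) :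
    LogGeneralType ℂ L w (OffU U x) ∧ SpAlgU U F ≠ Pts U F ∧ SpP U F ≠ Pts U F ∧
      SpH U F ≠ Pts U F ∧ SpCg U F ≠ Pts U F ∧ SpT U F ≠ Pts U F := by
  have h1 : LogGeneralType ℂ L w (OffU U x) :=
    logGeneralType X hX hpt halg hx.dim hw fun P hP i j hj => (hbd i j hj).reg hx.unit hP
  obtain ⟨R, hR, hRx, hRalg, hRP⟩ := exc X hX hx hgen hpt halg hbd
  obtain ⟨v, hv, hvR⟩ : ∃ v ∈ Pts U F, MvPolynomial.eval v R ≠ 0 := by
    by_contra hcon
    push Not at hcon
    exact hRx ((hgen R hR).2 hcon)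
  have hP : v ∉ SpP U F := fun h => hvR (h.2 R hR hRP)
  have hH : v ∉ SpH U F := fun h => hP (spH_sub U F h)
  refine ⟨h1, ?_, ?_, ?_, ?_, ?_⟩
  · intro h
    rw [← h] at hv
    have h2 := hv.2 R hR (fun K _ _ w' y' hw' hy' hlgt => by
      by_contra hne
      exact hlgt (hRalg K w' y' hw' hy' hne))
    rw [val_eval] at h2
    exact hvR h2
  · intro h
    rw [← h] at hv
    exact hP hv
  · intro h
    rw [← h] at hv
    exact hH hv
  · intro h
    rw [spCg_eq] at h
    rw [← h] at hv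
    exact hH hv
  · intro h
    rw [← h] at hv
    exact hH (spT_subH hv)

end five

end Pool.Agent.Helper1K9.PK
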